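import Pool.Agent.H51.FT.Five4
import Pool.Agent.H23.FT.S5A

/-!
The statement on commuting elements of prime orders of different classes.
-/

namespace H51.FT

open Subgroup H57.FT
open scoped Pointwise commutatorElement

variable {G : Type*} [Group G] [Finite G]

lemma NC.to_num {p q : ℕ} [Fact p.Prime] [Fact q.Prime] {P : Sylow p G} {Q : Sylow q G}
    (h : NC (normalizer (P : Set G)) (normalizer (Q : Set G))) : H23.FT.NC p q G := by
  intro P' Q' he
  obtain ⟨g, rfl⟩ := MulAction.exists_smul_eq G P P'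
  obtain ⟨k, rfl⟩ := MulAction.exists_smul_eq G Q Q'
  apply h (k⁻¹ * g)
  rw [map_mul, mul_smul, sylow_normalizer_smul, he, ← sylow_normalizer_smul, map_inv,
    inv_smul_smul]

lemma NC.prime_ne {p q : ℕ} [Fact p.Prime] [Fact q.Prime] {P : Sylow p G} {Q : Sylow q G}
    (h : NC (normalizer (P : Set G)) (normalizer (Q : Set G))) : p ≠ q := by
  rintro rfl
  exact h.to_num P P rfl

variable [IsSimpleGroup G]

/-- (5.1) in the form used in 5.3, 5.4 -/
theorem s51 (hG : _root_.commutator G = ⊤) (hodd : Odd (Nat.card G))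
    (hNA : ∀ H : Subgroup G, H < ⊤ → Group.IsNilpotent (_root_.commutator H)) : S51 G := by
  intro p s hp hs P S x u hx hxp hu hxu hNC
  have hps : p ≠ s := hNC.prime_ne
  have h1 : HH x = ⊥ := HH_good hG hNA P hx.1 hxp hx.2.2
  have h2 : ¬ s ∣ Nat.card (HH x) := by
    rw [h1, card_bot]
    exact hs.out.one_lt.ne' ∘ Nat.dvd_one.mp
  by_cases h3 : p ∣ Nat.card (HH u)
  · exact Pool.Agent.H3.FT.mem_HH hG hodd hNA S hu.1 hu.2.1 h3 hxu (k := 1)
      (by rw [pow_one, ← hxp]; exact pow_orderOf_eq_one x)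
  · exact absurd (H23.FT.five_one hG hodd hNA P hps hNC.to_num S hx.1 hxp hu.1 hu.2.1 hxu h2 h3).2
      hu.2.2

/-- (PAIR) -/
theorem pair_of (hG : _root_.commutator G = ⊤) (hodd : Odd (Nat.card G))
    (hNA : ∀ H : Subgroup G, H < ⊤ → Group.IsNilpotent (_root_.commutator H)) (h52 : S52 G)
    {p q : ℕ} [hp : Fact p.Prime] [hq : Fact q.Prime] (P : Sylow p G) (Q : Sylow q G) {x y : G}
    (hx : x ∈ P) (hxp : orderOf x = p) (hy : y ∈ Q) (hyq : orderOf y = q)
    (hxy : x * y = y * x) (hNC : NC (normalizer (P : Set G)) (normalizer (Q : Set G))) :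
    y ∈ HH x ∨ x ∈ HH y := by
  have hpq : p ≠ q := hNC.prime_ne
  by_cases h1 : q ∣ Nat.card (HH x)
  · left
    exact Pool.Agent.H3.FT.mem_HH hG hodd hNA P hx hxp h1 hxy.symm (k := 1)
      (by rw [pow_one, ← hyq]; exact pow_orderOf_eq_one y)
  by_cases h2 : p ∣ Nat.card (HH y)
  · right
    exact Pool.Agent.H3.FT.mem_HH hG hodd hNA Q hy hyq h2 hxy (k := 1)
      (by rw [pow_one, ← hxp]; exact pow_orderOf_eq_one x)
  exfalso
  obtain ⟨h3, h4⟩ := H23.FT.five_one hG hodd hNA P hpq hNC.to_num Q hx hxp hy hyq hxy h1 h2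
  have hx1 : x ≠ 1 := by
    intro h
    rw [h, orderOf_one] at hxp
    exact hp.out.one_lt.ne hxp
  have hy1 : y ≠ 1 := by
    intro h
    rw [h, orderOf_one] at hyq
    exact hq.out.one_lt.ne hyq
  exact five_four hG hodd hNA (s51 hG hodd hNA) h52 P Q ⟨hx, hx1, h3⟩ hxp ⟨hy, hy1, h4⟩ hyq hxy hNC

end H51.FT
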