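import Pool.Agent.H51.FT.Max

/-!
Sections 1.1 and 1.2: the `p'`-part of the derived subgroup of a nilpotent-by-abelian group.
-/

namespace H51.FT

open Subgroup
open scoped Pointwise commutatorElement

section abstractgroup
variable {N : Type*} [Group N] [Finite N]

omit [Finite N] in
lemma card_sup_coprime {n : ℕ} {A B : Subgroup N} [B.Normal]
    (hA : (Nat.card A).Coprime n) (hB : (Nat.card B).Coprime n) :
    (Nat.card (A ⊔ B : Subgroup N)).Coprime n := by
  have h1 := relIndex_mul_relIndex ⊥ B (A ⊔ B) bot_le le_sup_right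
  rw [relIndex_bot_left, relIndex_bot_left, relIndex_sup_right] at h1
  rw [← h1]
  exact Nat.Coprime.mul_left hB (Nat.Coprime.coprime_dvd_left (relIndex_dvd_card B A) hA)

/-- in a finite nilpotent group the `p'`-elements are the elements of a `p'`-subgroup -/
lemma exists_pprime [Group.IsNilpotent N] (p : ℕ) [hp : Fact p.Prime] :
    ∃ K : Subgroup N, (Nat.card K).Coprime p ∧ ∀ x : N, (orderOf x).Coprime p → x ∈ K := by
  classical
  let f : ℕ → Subgroup N := fun q => ((default : Sylow q N) : Subgroup N)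
  have hf : ∀ q, q.Prime → (f q).Normal := by
    intro q hq
    have : Fact q.Prime := ⟨hq⟩
    exact (inferInstance : ((default : Sylow q N) : Subgroup N).Normal)
  have hfc : ∀ q, q.Prime → q ≠ p → (Nat.card (f q)).Coprime p := by
    intro q hq hqp
    have : Fact q.Prime := ⟨hq⟩
    obtain ⟨n, hn⟩ := IsPGroup.iff_card.mp (default : Sylow q N).2
    change (Nat.card ((default : Sylow q N) : Subgroup N)).Coprime p
    rw [hn]
    exact Nat.Coprime.pow_left _ ((Nat.coprime_primes hq hp.out).mpr hqp)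
  let s : Finset ℕ := (Nat.card N).primeFactors.erase p
  have hs : ∀ q ∈ s, q.Prime ∧ q ≠ p := by
    intro q hq
    simp only [s, Finset.mem_erase] at hq
    exact ⟨Nat.prime_of_mem_primeFactors hq.2, hq.1⟩
  have main : ∀ t : Finset ℕ, (∀ q ∈ t, q.Prime ∧ q ≠ p) →
      (t.sup f : Subgroup N).Normal ∧ (Nat.card (t.sup f : Subgroup N)).Coprime p := by
    intro t
    induction t using Finset.induction_on with
    | empty => intro _; simp only [Finset.sup_empty]; exact ⟨inferInstance, by simp⟩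
    | insert q t hq ih =>
      intro h
      obtain ⟨h1, h2⟩ := ih (fun r hr => h r (Finset.mem_insert_of_mem hr))
      obtain ⟨h3, h4⟩ := h q (Finset.mem_insert_self _ _)
      have := hf q h3
      have := h1
      rw [Finset.sup_insert]
      exact ⟨inferInstance, card_sup_coprime (hfc q h3 h4) h2⟩
  obtain ⟨h1, h2⟩ := main s hs
  refine ⟨s.sup f, h2, ?_⟩
  intro x hx
  have := h1
  have hidx : ∀ q, q.Prime → q ≠ p → ¬ q ∣ (s.sup f).index := by
    intro q hq hqp hdvd
    have : Fact q.Prime := ⟨hq⟩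
    by_cases hqs : q ∈ s
    · have h3 : f q ≤ s.sup f := Finset.le_sup hqs
      exact (default : Sylow q N).not_dvd_index (hdvd.trans (index_dvd_of_le h3))
    · apply hqs
      simp only [s, Finset.mem_erase]
      exact ⟨hqp, Nat.mem_primeFactors.mpr ⟨hq, hdvd.trans (index_dvd_card _), Nat.card_pos.ne'⟩⟩
  have hcop : (orderOf x).Coprime (s.sup f).index := by
    rw [Nat.coprime_iff_gcd_eq_one]
    by_contra hne
    obtain ⟨q, hq, hqd⟩ := Nat.exists_prime_and_dvd hne
    have h3 : q ∣ orderOf x := hqd.trans (Nat.gcd_dvd_left _ _)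
    have h4 : q ∣ (s.sup f).index := hqd.trans (Nat.gcd_dvd_right _ _)
    have h5 : q ≠ p := by
      rintro rfl
      exact hq.one_lt.ne' (Nat.eq_one_of_dvd_coprimes hx h3 dvd_rfl)
    exact hidx q hq h5 h4
  rw [← QuotientGroup.eq_one_iff]
  apply orderOf_eq_one_iff.mp
  apply Nat.eq_one_of_dvd_coprimes hcop
  · exact orderOf_map_dvd (QuotientGroup.mk' (s.sup f)) x
  · rw [index_eq_card]; exact orderOf_dvd_natCard _

end abstractgroup

variable {G : Type*} [Group G] [Finite G]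

/-- `K` is the `p'`-part of the derived subgroup of `H`. -/
structure IsKp (p : ℕ) (H K : Subgroup G) : Prop where
  mem : ∀ x, x ∈ K ↔ x ∈ (⁅H, H⁆ : Subgroup G) ∧ (orderOf x).Coprime p
  cop : (Nat.card K).Coprime p
  nil : Group.IsNilpotent K

omit [Finite G] in
lemma comm_le_self (H : Subgroup G) : (⁅H, H⁆ : Subgroup G) ≤ H := by
  rw [commutator_le]
  intro a ha b hb
  rw [commutatorElement_def]
  exact mul_mem (mul_mem (mul_mem ha hb) (inv_mem ha)) (inv_mem hb)

lemma exists_isKp {p : ℕ} [Fact p.Prime] {H : Subgroup G}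
    (hH : Group.IsNilpotent (_root_.commutator H)) : ∃ K, IsKp p H K := by
  have := nil_comm hH
  obtain ⟨K, h1, h2⟩ := exists_pprime (N := (⁅H, H⁆ : Subgroup G)) p
  refine ⟨K.map (⁅H, H⁆ : Subgroup G).subtype, ?_, ?_, ?_⟩
  · intro x
    constructor
    · rintro ⟨y, hy, rfl⟩
      refine ⟨y.2, ?_⟩
      have h3 : orderOf ((⁅H, H⁆ : Subgroup G).subtype y) = orderOf y :=
        orderOf_injective _ (subtype_injective _) y
      rw [h3]
      have h4 : orderOf y ∣ Nat.card K := by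
        have := orderOf_dvd_natCard (⟨y, hy⟩ : K)
        rwa [← orderOf_submonoid] at this
      exact Nat.Coprime.coprime_dvd_left h4 h1
    · rintro ⟨hx, hxp⟩
      refine ⟨⟨x, hx⟩, h2 _ ?_, rfl⟩
      have h3 : orderOf (⟨x, hx⟩ : (⁅H, H⁆ : Subgroup G)) = orderOf x :=
        (orderOf_injective _ (subtype_injective _) (⟨x, hx⟩ : (⁅H, H⁆ : Subgroup G))).symm
      rw [h3]; exact hxp
  · rw [Subgroup.card_map_of_injective (subtype_injective _)]; exact h1
  · exact Group.nilpotent_of_mulEquiv (K.equivMapOfInjective _ (subtype_injective _))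

namespace IsKp

variable {p : ℕ} {H K : Subgroup G}

omit [Finite G] in
lemma le_comm (h : IsKp p H K) : K ≤ ⁅H, H⁆ := fun x hx => ((h.mem x).mp hx).1

omit [Finite G] in
lemma le (h : IsKp p H K) : K ≤ H := h.le_comm.trans (comm_le_self H)

omit [Finite G] in
lemma conj_mem_comm {H : Subgroup G} {h x : G} (hh : h ∈ H) (hx : x ∈ (⁅H, H⁆ : Subgroup G)) :
    h * x * h⁻¹ ∈ (⁅H, H⁆ : Subgroup G) := by
  have h1 : h * x * h⁻¹ = ⁅h, x⁆ * x := by rw [commutatorElement_def]; group
  rw [h1]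
  exact mul_mem (commutator_mem_commutator hh (comm_le_self H hx)) hx

omit [Finite G] in
lemma le_normalizer_comm (H : Subgroup G) : H ≤ normalizer ((⁅H, H⁆ : Subgroup G) : Set G) := by
  intro h hh
  rw [mem_normalizer_iff]
  intro x
  constructor
  · exact fun hx => conj_mem_comm hh hx
  · intro hx
    have := conj_mem_comm (inv_mem hh) hx
    have h1 : h⁻¹ * (h * x * h⁻¹) * h⁻¹⁻¹ = x := by group
    rwa [h1] at this

omit [Finite G] in
lemma orderOf_conj (g x : G) : orderOf (g * x * g⁻¹) = orderOf x := by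
  have := orderOf_injective (MulAut.conj g).toMonoidHom (MulAut.conj g).injective x
  simpa using this

lemma le_normalizer (h : IsKp p H K) : H ≤ normalizer (K : Set G) := by
  intro g hg
  rw [mem_normalizer_iff]
  intro x
  rw [h.mem, h.mem, orderOf_conj]
  have := (mem_normalizer_iff.mp (le_normalizer_comm H hg)) x
  rw [this]

end IsKp

omit [Finite G] in
/-- two subgroups of coprime orders normalising each other commute -/
lemma commute_of_coprime {A B : Subgroup G} (hc : (Nat.card A).Coprime (Nat.card B))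
    (h1 : A ≤ normalizer (B : Set G)) (h2 : B ≤ normalizer (A : Set G)) :
    ∀ a ∈ A, ∀ b ∈ B, a * b = b * a := by
  intro a ha b hb
  have h3 : a * b * a⁻¹ * b⁻¹ ∈ B := mul_mem ((mem_normalizer_iff.mp (h1 ha) b).mp hb) (inv_mem hb)
  have h4 : a * b * a⁻¹ * b⁻¹ ∈ A := by
    have : a * (b * a⁻¹ * b⁻¹) ∈ A :=
      mul_mem ha ((mem_normalizer_iff.mp (h2 hb) a⁻¹).mp (inv_mem ha))
    have h5 : a * (b * a⁻¹ * b⁻¹) = a * b * a⁻¹ * b⁻¹ := by group
    rwa [h5] at this
  have h5 : A ⊓ B = ⊥ := (disjoint_of_coprime_natCard hc).eq_bot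
  have h6 : a * b * a⁻¹ * b⁻¹ ∈ A ⊓ B := ⟨h4, h3⟩
  rw [h5, mem_bot] at h6
  calc a * b = a * b * a⁻¹ * b⁻¹ * (b * a) := by group
    _ = b * a := by rw [h6, one_mul]

/-- the decomposition of an element into its `p`-part and its `p'`-part -/
lemma exists_decomp (p : ℕ) [hp : Fact p.Prime] (x : G) :
    ∃ y z : G, x = y * z ∧ y ∈ zpowers x ∧ z ∈ zpowers x ∧ (∃ k : ℕ, y ^ p ^ k = 1) ∧
      (orderOf z).Coprime p := by
  have hn : orderOf x ≠ 0 := (orderOf_pos x).ne'
  obtain ⟨a, m, hm, hnm⟩ := Nat.exists_eq_pow_mul_and_not_dvd hn p hp.out.ne_one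
  have hcop : Nat.Coprime (p ^ a) m := Nat.Coprime.pow_left _ ((hp.out.coprime_iff_not_dvd).mpr hm)
  have hb := Nat.gcd_eq_gcd_ab (p ^ a) m
  rw [hcop] at hb
  have hx1 : x ^ (p ^ a * m) = 1 := by rw [← hnm]; exact pow_orderOf_eq_one x
  refine ⟨x ^ ((m : ℤ) * Nat.gcdB (p ^ a) m), x ^ (((p ^ a : ℕ) : ℤ) * Nat.gcdA (p ^ a) m),
    ?_, zpow_mem_zpowers _ _, zpow_mem_zpowers _ _, ⟨a, ?_⟩, ?_⟩
  · rw [← zpow_add]
    have : (m : ℤ) * Nat.gcdB (p ^ a) m + ((p ^ a : ℕ) : ℤ) * Nat.gcdA (p ^ a) m = 1 := by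
      have h2 : ((1 : ℕ) : ℤ) = 1 := rfl
      rw [← h2, hb]; push_cast; ring
    rw [this, zpow_one]
  · rw [← zpow_natCast, ← zpow_mul]
    have : (m : ℤ) * Nat.gcdB (p ^ a) m * ((p ^ a : ℕ) : ℤ) =
        ((p ^ a * m : ℕ) : ℤ) * Nat.gcdB (p ^ a) m := by push_cast; ring
    rw [this, zpow_mul, zpow_natCast, hx1, one_zpow]
  · have h1 : orderOf (x ^ (((p ^ a : ℕ) : ℤ) * Nat.gcdA (p ^ a) m)) ∣ m := by
      apply orderOf_dvd_of_pow_eq_one
      rw [← zpow_natCast, ← zpow_mul]
      have : ((p ^ a : ℕ) : ℤ) * Nat.gcdA (p ^ a) m * (m : ℤ) =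
        ((p ^ a * m : ℕ) : ℤ) * Nat.gcdA (p ^ a) m := by push_cast; ring
      rw [this, zpow_mul, zpow_natCast, hx1, one_zpow]
    exact Nat.Coprime.coprime_dvd_left h1 ((hp.out.coprime_iff_not_dvd.mpr hm).symm)

/-- the Sylow subgroup of `H` belonging to `S` -/
def IsSyl.toSylow {p : ℕ} {H S : Subgroup G} (h : IsSyl p H S) : Sylow p H where
  toSubgroup := S.subgroupOf H
  isPGroup' := h.2.1.comap_subtype
  is_maximal' := by
    intro Q hQ hSQ
    have h1 : Q.map H.subtype = S := by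
      apply h.2.2
      · exact map_subtype_le Q
      · exact hQ.map _
      · have := map_mono (f := H.subtype) hSQ
        rwa [subgroupOf_map_subtype, inf_eq_left.mpr h.1] at this
    rw [← h1, subgroupOf, comap_map_eq_self_of_injective (subtype_injective H)]

omit [Finite G] in
lemma conj_smul_subgroupOf' {H S : Subgroup G} (hS : S ≤ H) (h : H) :
    (MulAut.conj h • S.subgroupOf H) = (MulAut.conj (h : G) • S).subgroupOf H :=
  Subgroup.conj_smul_subgroupOf hS h

/-- Sylow's theorem inside `H` -/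
lemma IsSyl.exists_conj {p : ℕ} [Fact p.Prime] {H S T : Subgroup G} (hS : IsSyl p H S)
    (hT : IsSyl p H T) : ∃ h ∈ H, MulAut.conj h • S = T := by
  obtain ⟨h, hh⟩ := MulAction.exists_smul_eq H hS.toSylow hT.toSylow
  refine ⟨h, h.2, ?_⟩
  have h1 : ((h • hS.toSylow : Sylow p H) : Subgroup H) = T.subgroupOf H := by
    rw [hh]; rfl
  rw [Sylow.coe_subgroup_smul] at h1
  change MulAut.conj h • S.subgroupOf H = _ at h1
  rw [conj_smul_subgroupOf' hS.1] at h1
  have h2 := congrArg (map H.subtype) h1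
  rw [subgroupOf_map_subtype, subgroupOf_map_subtype, inf_eq_left.mpr hT.1,
    inf_eq_left.mpr (Subgroup.conj_smul_le_of_le hS.1 h)] at h2
  exact h2

/-- `⁅H,H⁆` is contained in the product of a Sylow `p`-subgroup of `H` and `K` -/
lemma IsKp.comm_le {p : ℕ} [hp : Fact p.Prime] {H K S : Subgroup G}
    (hH : Group.IsNilpotent (_root_.commutator H)) (h : IsKp p H K) (hS : IsSyl p H S) :
    (⁅H, H⁆ : Subgroup G) ≤ S ⊔ K := by
  have hnil := nil_comm hH
  intro x hx
  obtain ⟨y, z, rfl, hy, hz, ⟨k, hk⟩, hzc⟩ := exists_decomp p x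
  have hy1 : y ∈ (⁅H, H⁆ : Subgroup G) := (zpowers_le.mpr hx) hy
  have hz1 : z ∈ (⁅H, H⁆ : Subgroup G) := (zpowers_le.mpr hx) hz
  refine mul_mem (mem_sup_left ?_) (mem_sup_right ((h.mem z).mpr ⟨hz1, hzc⟩))
  -- the normal Sylow subgroup of the derived subgroup
  set N : Subgroup G := ⁅H, H⁆ with hN
  set T : Subgroup G := ((default : Sylow p N) : Subgroup N).map N.subtype with hT
  have hTmem : ∀ u : G, u ∈ N → (∃ k : ℕ, u ^ p ^ k = 1) → u ∈ T := by
    rintro u hu ⟨j, hj⟩
    refine ⟨⟨u, hu⟩, ?_, rfl⟩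
    have hpz : IsPGroup p (zpowers (⟨u, hu⟩ : N)) := by
      rintro ⟨w, hw⟩
      obtain ⟨i, rfl⟩ := mem_zpowers_iff.mp hw
      refine ⟨j, ?_⟩
      apply Subtype.ext
      change ((⟨u, hu⟩ : N) ^ i) ^ p ^ j = 1
      rw [← zpow_natCast, ← zpow_mul, mul_comm, zpow_mul, zpow_natCast]
      have : (⟨u, hu⟩ : N) ^ p ^ j = 1 := Subtype.ext hj
      rw [this, one_zpow]
    obtain ⟨Q, hQ⟩ := hpz.exists_le_sylow
    have hQ2 : Q = default := by
      have := Sylow.unique_of_normal (default : Sylow p N) inferInstance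
      exact Subsingleton.elim _ _
    rw [← hQ2]
    exact hQ (mem_zpowers _)
  have hTp : IsPGroup p T := (default : Sylow p N).2.map _
  have hTN : T ≤ N := map_subtype_le _
  have hTinv : H ≤ normalizer (T : Set G) := by
    intro g hg
    rw [mem_normalizer_iff]
    have key : ∀ g ∈ H, ∀ u ∈ T, g * u * g⁻¹ ∈ T := by
      intro g hg u hu
      apply hTmem
      · exact IsKp.conj_mem_comm hg (hTN hu)
      · obtain ⟨j, hj⟩ := hTp ⟨u, hu⟩
        refine ⟨j, ?_⟩
        have hj' : u ^ p ^ j = 1 := congrArg Subtype.val hj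
        rw [conj_pow, hj', mul_one, mul_inv_cancel]
    intro u
    constructor
    · exact key g hg u
    · intro hu
      have := key g⁻¹ (inv_mem hg) _ hu
      have h1 : g⁻¹ * (g * u * g⁻¹) * g⁻¹⁻¹ = u := by group
      rwa [h1] at this
  have hTS : S ⊔ T = S := by
    apply hS.2.2
    · exact sup_le hS.1 (hTN.trans (comm_le_self H))
    · exact hS.2.1.to_sup_of_normal_right' hTp (hS.1.trans hTinv)
    · exact le_sup_left
  rw [← hTS]
  exact mem_sup_right (hTmem y hy1 ⟨k, hk⟩)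

/-- (1.1) Frattini argument: every element of `H` is a product of an element of `K` and an
element normalising `S` -/
theorem IsKp.frattini {p : ℕ} [hp : Fact p.Prime] {H K S : Subgroup G}
    (hH : Group.IsNilpotent (_root_.commutator H)) (h : IsKp p H K) (hS : IsSyl p H S)
    {g : G} (hg : g ∈ H) : ∃ k ∈ K, MulAut.conj g • S = MulAut.conj k • S := by
  set J := S ⊔ K with hJ
  have hJH : J ≤ H := sup_le hS.1 h.le
  have hcJ := h.comm_le hH hS
  have hSJ : IsSyl p J S := ⟨le_sup_left, hS.2.1, fun T hT => hS.2.2 T (hT.trans hJH)⟩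
  have hgJ : MulAut.conj g • J = J := by
    have key : ∀ g ∈ H, MulAut.conj g • J ≤ J := by
      intro g hg
      rintro _ ⟨x, hx, rfl⟩
      change g * x * g⁻¹ ∈ J
      have h1 : g * x * g⁻¹ = ⁅g, x⁆ * x := by rw [commutatorElement_def]; group
      rw [h1]
      exact mul_mem (hcJ (commutator_mem_commutator hg (hJH hx))) hx
    apply le_antisymm (key g hg)
    have h2 := key g⁻¹ (inv_mem hg)
    rw [map_inv] at h2
    rw [Subgroup.subset_pointwise_smul_iff]
    exact h2
  have hSg : IsSyl p J (MulAut.conj g • S) := by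
    have h1 := hS.conj hg
    refine ⟨?_, h1.2.1, fun T hT => h1.2.2 T (hT.trans hJH)⟩
    calc MulAut.conj g • S ≤ MulAut.conj g • J :=
          Subgroup.pointwise_smul_le_pointwise_smul_iff.mpr le_sup_left
      _ = J := hgJ
  obtain ⟨j, hj, hjS⟩ := hSJ.exists_conj hSg
  have hjm : j ∈ ((K : Set G) * (S : Set G)) := by
    have h1 : ((K ⊔ S : Subgroup G) : Set G) = (K : Set G) * (S : Set G) :=
      coe_mul_of_right_le_normalizer_left K S (hS.1.trans h.le_normalizer)
    rw [← h1, sup_comm]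
    exact hj
  obtain ⟨k, hk, s, hs, rfl⟩ := hjm
  refine ⟨k, hk, ?_⟩
  rw [← hjS]
  change MulAut.conj (k * s) • S = _
  rw [map_mul, mul_smul]
  have : MulAut.conj s • S = S := Subgroup.conj_smul_eq_self_of_mem hs
  rw [this]

/-- (1.1) the Sylow `p`-subgroups of `H` are conjugate under `K` -/
theorem IsKp.exists_conj {p : ℕ} [hp : Fact p.Prime] {H K S T : Subgroup G}
    (hH : Group.IsNilpotent (_root_.commutator H)) (h : IsKp p H K) (hS : IsSyl p H S)
    (hT : IsSyl p H T) : ∃ k ∈ K, MulAut.conj k • S = T := by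
  obtain ⟨g, hg, rfl⟩ := hS.exists_conj hT
  obtain ⟨k, hk, h1⟩ := h.frattini hH hS hg
  exact ⟨k, hk, h1.symm⟩

/-- (1.1) -/
theorem IsKp.le_sup_normalizer {p : ℕ} [hp : Fact p.Prime] {H K S : Subgroup G}
    (hH : Group.IsNilpotent (_root_.commutator H)) (h : IsKp p H K) (hS : IsSyl p H S) :
    ∀ g ∈ H, ∃ k ∈ K, ∃ n ∈ H ⊓ normalizer (S : Set G), g = k * n := by
  intro g hg
  obtain ⟨k, hk, h1⟩ := h.frattini hH hS hg
  refine ⟨k, hk, k⁻¹ * g, ⟨H.mul_mem (H.inv_mem (h.le hk)) hg, ?_⟩, by group⟩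
  change k⁻¹ * g ∈ normalizer (S : Set G)
  have h2 : MulAut.conj (k⁻¹ * g) • S = S := by
    rw [map_mul, mul_smul, h1, map_inv, inv_smul_smul]
  rw [mem_normalizer_iff]
  intro x
  constructor
  · intro hx
    have h3 := Subgroup.smul_mem_pointwise_smul x (MulAut.conj (k⁻¹ * g)) S hx
    rw [h2] at h3
    exact h3
  · intro hx
    have h3 : MulAut.conj (k⁻¹ * g) • x ∈ MulAut.conj (k⁻¹ * g) • S := by
      rw [h2]; exact hx
    exact Subgroup.smul_mem_pointwise_smul_iff.mp h3

/-- `K` centralises every normal `p`-subgroup of `H` -/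
theorem IsKp.le_centralizer {p : ℕ} [hp : Fact p.Prime] {H K E : Subgroup G}
    (h : IsKp p H K) (hE : E ≤ H) (hEp : IsPGroup p E) (hEn : H ≤ normalizer (E : Set G)) :
    K ≤ centralizer (E : Set G) := by
  intro k hk
  rw [mem_centralizer_iff]
  intro e he
  have hc : (Nat.card E).Coprime (Nat.card K) := by
    obtain ⟨n, hn⟩ := IsPGroup.iff_card.mp hEp
    rw [hn]
    exact Nat.Coprime.pow_left _ h.cop.symm
  exact commute_of_coprime hc (hE.trans h.le_normalizer) (h.le.trans hEn) e he k hk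

/-- (1.2) -/
theorem sylC [IsSimpleGroup G] {p : ℕ} [hp : Fact p.Prime] (hG : _root_.commutator G = ⊤)
    (hNA : ∀ H : Subgroup G, H < ⊤ → Group.IsNilpotent (_root_.commutator H)) : SylC p G := by
  intro D hD hDp S T hS hT
  have hlt : normalizer (D : Set G) < ⊤ := lt_top_iff_ne_top.mpr (normalizer_ne_top hG hDp hD)
  obtain ⟨K, hK⟩ := exists_isKp (p := p) (hNA _ hlt)
  obtain ⟨k, hk, h1⟩ := hK.exists_conj (hNA _ hlt) hS hT
  exact ⟨k, hK.le_centralizer Subgroup.le_normalizer hDp le_rfl hk, h1⟩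

end H51.FT
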