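import Mathlib

/-!
The number of elements attached to `F#`: counting lemma for 5.4 and 6.3.
-/

namespace H51.FT

open Subgroup

open scoped Classical

variable {G : Type*} [Group G]

/-- The centraliser of every `x ∈ F#` is `R x : C_M(x)`. -/
structure AttData (M F : Subgroup G) (R : G → Subgroup G) : Prop where
  le : F ≤ M
  nor : ∀ m ∈ M, ∀ x ∈ F, m * x * m⁻¹ ∈ F
  fus : ∀ x ∈ F, x ≠ 1 → ∀ g : G, g * x * g⁻¹ ∈ F → ∃ m ∈ M, m * x * m⁻¹ = g * x * g⁻¹
  cen : ∀ x ∈ F, x ≠ 1 → ∀ r ∈ R x, r * x = x * r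
  nrm : ∀ x ∈ F, x ≠ 1 → ∀ z : G, z * x = x * z → ∀ r ∈ R x, z * r * z⁻¹ ∈ R x
  dec : ∀ x ∈ F, x ≠ 1 → ∀ z : G, z * x = x * z → ∃ r ∈ R x, ∃ e ∈ M, z = r * e
  disj : ∀ x ∈ F, x ≠ 1 → ∀ r ∈ R x, r ∈ M → r = 1
  cop : ∀ x ∈ F, x ≠ 1 → (Nat.card (R x)).Coprime (Nat.card F)
  conj : ∀ x ∈ F, x ≠ 1 → ∀ m ∈ M, ∀ r ∈ R x, m * r * m⁻¹ ∈ R (m * x * m⁻¹)

/-- The set of elements attached to `F#`. -/
def Att (F : Subgroup G) (R : G → Subgroup G) : Set G :=
  {g | ∃ x ∈ F, x ≠ 1 ∧ ∃ r ∈ R x, ∃ k : G, g = k * (x * r) * k⁻¹}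

/-- Separation of commuting parts of coprime orders. -/
theorem crt_sep {A B : ℕ} (hAB : A.Coprime B) {x r x' r' g : G} (hx : x ^ A = 1)
    (hr : r ^ B = 1) (hx' : x' ^ A = 1) (hr' : r' ^ B = 1) (hc : r * x = x * r)
    (hc' : r' * x' = x' * r') (h : g * (x * r) * g⁻¹ = x' * r') :
    g * x * g⁻¹ = x' ∧ g * r * g⁻¹ = r' := by
  obtain ⟨k, hk1, hk2⟩ := Nat.chineseRemainder hAB 1 0
  have e1 : ∀ y s : G, y ^ A = 1 → s ^ B = 1 → s * y = y * s → (y * s) ^ k = y := by
    intro y s hy hs hc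
    have hc2 : Commute y s := hc.symm
    have h1 : y ^ k = y := by
      have h3 : y ^ k = y ^ 1 := pow_eq_pow_iff_modEq.2 (hk1.of_dvd (orderOf_dvd_of_pow_eq_one hy))
      rw [h3, pow_one]
    have h2 : s ^ k = 1 := by
      have h3 : s ^ k = s ^ 0 := pow_eq_pow_iff_modEq.2 (hk2.of_dvd (orderOf_dvd_of_pow_eq_one hs))
      rw [h3, pow_zero]
    rw [hc2.mul_pow, h1, h2, mul_one]
  have h1 := e1 x r hx hr hc
  have h2 := e1 x' r' hx' hr' hc'
  have h3 : g * x * g⁻¹ = x' := by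
    rw [← h2, ← h, conj_pow, h1]
  refine ⟨h3, ?_⟩
  have h4 : g * (x * r) * g⁻¹ = (g * x * g⁻¹) * (g * r * g⁻¹) := by group
  rw [h4, h3] at h
  exact mul_left_cancel h

variable {M F : Subgroup G} {R : G → Subgroup G}

namespace AttData

lemma ne_one {x g : G} (hx : x ≠ 1) : g * x * g⁻¹ ≠ 1 := fun h => hx (conj_eq_one_iff.1 h)

/-- conjugation in `G` between elements of `F#` respects the groups `R(x)` -/
theorem fus_R (D : AttData M F R) {x r c : G} (hx : x ∈ F) (hx1 : x ≠ 1)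
    (hc : c * x * c⁻¹ ∈ F) (hr : r ∈ R x) : c * r * c⁻¹ ∈ R (c * x * c⁻¹) := by
  obtain ⟨m, hm, hmx⟩ := D.fus x hx hx1 c hc
  have hz : (m⁻¹ * c) * x = x * (m⁻¹ * c) := by
    have h1 : c * x = m * x * m⁻¹ * c := by rw [hmx]; group
    rw [mul_assoc, h1]
    group
  have h2 := D.conj x hx hx1 m hm _ (D.nrm x hx hx1 _ hz r hr)
  rw [hmx] at h2
  have e : m * (m⁻¹ * c * r * (m⁻¹ * c)⁻¹) * m⁻¹ = c * r * c⁻¹ := by group
  rw [e] at h2
  exact h2

/-- `{k | k⁻¹ x k ∈ F} = R(x) M` -/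
theorem exists_mul (D : AttData M F R) {x k : G} (hx : x ∈ F) (hx1 : x ≠ 1)
    (hk : k⁻¹ * x * k ∈ F) : ∃ r ∈ R x, ∃ m ∈ M, k = r * m := by
  have hk' : k⁻¹ * x * k⁻¹⁻¹ ∈ F := by rwa [inv_inv]
  obtain ⟨m, hm, hmx⟩ := D.fus x hx hx1 k⁻¹ hk'
  have hz : (k * m) * x = x * (k * m) := by
    have h1 : m * x = k⁻¹ * x * k * m := by
      rw [inv_inv] at hmx
      rw [← hmx]
      group
    rw [mul_assoc, h1]
    group
  obtain ⟨r, hr, e, he, h⟩ := D.dec x hx hx1 _ hz
  refine ⟨r, hr, e * m⁻¹, M.mul_mem he (M.inv_mem hm), ?_⟩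
  rw [← mul_assoc, ← h]
  group

/-- (E3'): conjugate elements of the cosets `x R(x)`, `x' R(x')` come from a simultaneous
conjugation of the parts. -/
theorem sep (D : AttData M F R) {x x' r r' g : G} (hx : x ∈ F) (hx1 : x ≠ 1) (hx' : x' ∈ F)
    (hx1' : x' ≠ 1) (hr : r ∈ R x) (hr' : r' ∈ R x') (h : g * (x * r) * g⁻¹ = x' * r') :
    g * x * g⁻¹ = x' ∧ g * r * g⁻¹ = r' := by
  have key : ∀ (S : Subgroup G) (y : G), y ∈ S → y ^ Nat.card S = 1 := fun S y hy =>
    congrArg Subtype.val (pow_card_eq_one' (x := (⟨y, hy⟩ : S)))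
  refine crt_sep (A := Nat.card F) (B := Nat.card (R x) * Nat.card (R x')) ?_ (key _ _ hx) ?_
    (key _ _ hx') ?_ (D.cen x hx hx1 r hr) (D.cen x' hx' hx1' r' hr') h
  · exact Nat.Coprime.mul_right (D.cop x hx hx1).symm (D.cop x' hx' hx1').symm
  · rw [pow_mul, key _ _ hr, one_pow]
  · rw [mul_comm, pow_mul, key _ _ hr', one_pow]

theorem card_R_conj (D : AttData M F R) {x c : G} (hx : x ∈ F) (hx1 : x ≠ 1)
    (hc : c * x * c⁻¹ ∈ F) : Nat.card (R (c * x * c⁻¹)) = Nat.card (R x) := by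
  symm
  refine Nat.card_congr
    { toFun := fun r => ⟨c * r * c⁻¹, D.fus_R hx hx1 hc r.2⟩
      invFun := fun r => ⟨c⁻¹ * r * c, ?_⟩
      left_inv := fun r => Subtype.ext (by simp [mul_assoc])
      right_inv := fun r => Subtype.ext (by simp [mul_assoc]) }
  have h1 : c * x * c⁻¹ ≠ 1 := ne_one hx1
  have e : c⁻¹ * (c * x * c⁻¹) * c⁻¹⁻¹ = x := by group
  have h2 : c⁻¹ * (c * x * c⁻¹) * c⁻¹⁻¹ ∈ F := by rw [e]; exact hx
  have h3 := D.fus_R hc h1 h2 r.2
  rw [e, inv_inv] at h3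
  exact h3

theorem card_conj_mem (D : AttData M F R) {x : G} (hx : x ∈ F) (hx1 : x ≠ 1) :
    Nat.card {k : G // k⁻¹ * x * k ∈ F} = Nat.card (R x) * Nat.card M := by
  rw [← Nat.card_prod]
  symm
  refine Nat.card_congr (Equiv.ofBijective
    (fun p : R x × M => (⟨p.1 * p.2, ?_⟩ : {k : G // k⁻¹ * x * k ∈ F})) ⟨?_, ?_⟩)
  · have h1 := D.cen x hx hx1 p.1 p.1.2
    have e : ((p.1 : G) * p.2)⁻¹ * x * (p.1 * p.2) = (p.2 : G)⁻¹ * x * (p.2 : G)⁻¹⁻¹ := by
      have h2 : x * (p.1 : G) = p.1 * x := h1.symm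
      calc ((p.1 : G) * p.2)⁻¹ * x * (p.1 * p.2)
          = (p.2 : G)⁻¹ * (p.1 : G)⁻¹ * (x * p.1) * p.2 := by group
        _ = (p.2 : G)⁻¹ * (p.1 : G)⁻¹ * (p.1 * x) * p.2 := by rw [h2]
        _ = _ := by group
    rw [e]
    exact D.nor _ (M.inv_mem p.2.2) x hx
  · rintro ⟨r, m⟩ ⟨r', m'⟩ h
    have h1 : (r : G) * m = r' * m' := congrArg Subtype.val h
    have h2 : (r' : G)⁻¹ * r = m' * (m : G)⁻¹ := by
      rw [inv_mul_eq_iff_eq_mul, ← mul_assoc, ← h1]
      group
    have h3 := D.disj x hx hx1 _ ((R x).mul_mem ((R x).inv_mem r'.2) r.2)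
      (by rw [h2]; exact M.mul_mem m'.2 (M.inv_mem m.2))
    have h4 : r = r' := Subtype.ext (by rw [inv_mul_eq_one] at h3; exact h3.symm)
    subst h4
    have h5 : m = m' := Subtype.ext (mul_left_cancel h1)
    rw [h5]
  · rintro ⟨k, hk⟩
    obtain ⟨r, hr, m, hm, hkm⟩ := D.exists_mul hx hx1 hk
    exact ⟨(⟨r, hr⟩, ⟨m, hm⟩), Subtype.ext hkm.symm⟩

end AttData

/-- the number of attached elements -/
theorem card_Att [Finite G] (D : AttData M F R) :
    Nat.card (Att F R) * Nat.card M = Nat.card G * (Nat.card F - 1) := by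
  have := Fintype.ofFinite G
  set c : G → ℚ := fun x => ((Nat.card (R x) : ℚ))⁻¹ with hc
  set u : G → ℚ := fun g => ∑ x : G, ∑ r : G,
    if (x ∈ F ∧ x ≠ 1) ∧ r ∈ R x ∧ x * r = g then c x else 0 with hu
  -- the total weight
  have h1 : ∑ g : G, u g = (Nat.card F : ℚ) - 1 := by
    simp only [hu]
    rw [Finset.sum_comm]
    have hx : ∀ x : G, (∑ g : G, ∑ r : G,
        if (x ∈ F ∧ x ≠ 1) ∧ r ∈ R x ∧ x * r = g then c x else 0) =
        if x ∈ F ∧ x ≠ 1 then (1 : ℚ) else 0 := by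
      intro x
      rw [Finset.sum_comm]
      by_cases hx : x ∈ F ∧ x ≠ 1
      · rw [if_pos hx]
        have hr : ∀ r : G, (∑ g : G, if (x ∈ F ∧ x ≠ 1) ∧ r ∈ R x ∧ x * r = g then c x else 0) =
            if r ∈ R x then c x else 0 := by
          intro r
          by_cases hr : r ∈ R x
          · rw [if_pos hr, Finset.sum_eq_single (x * r)]
            · rw [if_pos ⟨hx, hr, rfl⟩]
            · intro g _ hg
              rw [if_neg (fun h => hg h.2.2.symm)]
            · intro h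
              exact absurd (Finset.mem_univ _) h
          · rw [if_neg hr]
            refine Finset.sum_eq_zero fun g _ => ?_
            rw [if_neg (fun h => hr h.2.1)]
        rw [Finset.sum_congr rfl fun r _ => hr r, ← Finset.sum_filter, Finset.sum_const,
          nsmul_eq_mul]
        have hcard : (Finset.univ.filter fun r : G => r ∈ R x).card = Nat.card (R x) := by
          rw [Nat.card_eq_fintype_card, Fintype.card_subtype]
        rw [hcard]
        simp only [hc]
        have : (Nat.card (R x) : ℚ) ≠ 0 := by exact_mod_cast Nat.card_pos.ne'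
        rw [mul_inv_cancel₀ this]
      · rw [if_neg hx]
        refine Finset.sum_eq_zero fun r _ => Finset.sum_eq_zero fun g _ => ?_
        rw [if_neg (fun h => hx h.1)]
    rw [Finset.sum_congr rfl fun x _ => hx x, ← Finset.sum_filter, Finset.sum_const, nsmul_eq_mul,
      mul_one]
    have h2 : (Finset.univ.filter fun x : G => x ∈ F ∧ x ≠ 1) =
        (Finset.univ.filter fun x : G => x ∈ F).erase 1 := by
      ext x
      simp only [Finset.mem_filter, Finset.mem_univ, true_and, Finset.mem_erase]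
      tauto
    rw [h2, Finset.card_erase_of_mem (by simp [F.one_mem])]
    have hcard : (Finset.univ.filter fun r : G => r ∈ F).card = Nat.card F := by
      rw [Nat.card_eq_fintype_card, Fintype.card_subtype]
    rw [hcard, Nat.cast_sub Nat.card_pos, Nat.cast_one]
  -- the weight of the conjugates
  have h2 : ∀ g : G, ∑ k : G, u (k⁻¹ * g * k) = if g ∈ Att F R then (Nat.card M : ℚ) else 0 := by
    intro g
    by_cases hg : g ∈ Att F R
    · rw [if_pos hg]
      obtain ⟨x, hx, hx1, r, hr, k, hk⟩ := hg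
      have h4 : ∀ j : G, u (j⁻¹ * (x * r) * j) = if j⁻¹ * x * j ∈ F then c x else 0 := by
        intro j
        by_cases hj : j⁻¹ * x * j ∈ F
        · rw [if_pos hj]
          have hj' : j⁻¹ * x * j⁻¹⁻¹ ∈ F := by rwa [inv_inv]
          have hne : j⁻¹ * x * j ≠ 1 := by
            intro h
            apply hx1
            have : x = j * (j⁻¹ * x * j) * j⁻¹ := by group
            rw [this, h]
            group
          have hrj : j⁻¹ * r * j ∈ R (j⁻¹ * x * j) := by
            have := D.fus_R hx hx1 hj' hr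
            rwa [inv_inv] at this
          have hcj : c (j⁻¹ * x * j) = c x := by
            have := D.card_R_conj hx hx1 hj'
            rw [inv_inv] at this
            simp only [hc, this]
          simp only [hu]
          rw [Finset.sum_eq_single (j⁻¹ * x * j), Finset.sum_eq_single (j⁻¹ * r * j)]
          · rw [if_pos ⟨⟨hj, hne⟩, hrj, by group⟩, hcj]
          · intro r' _ hr'
            rw [if_neg]
            rintro ⟨-, h5, h6⟩
            apply hr'
            have h7 : j⁻¹ * x * j * r' = j⁻¹ * x * j * (j⁻¹ * r * j) := by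
              rw [h6]; group
            exact mul_left_cancel h7
          · intro h
            exact absurd (Finset.mem_univ _) h
          · intro x' _ hx'
            refine Finset.sum_eq_zero fun r' _ => ?_
            rw [if_neg]
            rintro ⟨⟨h5, h5'⟩, h6, h7⟩
            apply hx'
            have h8 : j⁻¹ * (x * r) * j⁻¹⁻¹ = x' * r' := by rw [inv_inv, h7]
            have h9 := (D.sep hx hx1 h5 h5' hr h6 h8).1
            rw [inv_inv] at h9
            exact h9.symm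
          · intro h
            exact absurd (Finset.mem_univ _) h
        · rw [if_neg hj]
          simp only [hu]
          refine Finset.sum_eq_zero fun x' _ => Finset.sum_eq_zero fun r' _ => ?_
          rw [if_neg]
          rintro ⟨⟨h5, h5'⟩, h6, h7⟩
          apply hj
          have h8 : j⁻¹ * (x * r) * j⁻¹⁻¹ = x' * r' := by rw [inv_inv, h7]
          have h9 := (D.sep hx hx1 h5 h5' hr h6 h8).1
          rw [inv_inv] at h9
          rw [h9]
          exact h5
      have h6 : ∑ j : G, u (j⁻¹ * g * j) = ∑ j : G, u (j⁻¹ * (x * r) * j) := by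
        rw [← Equiv.sum_comp (Equiv.mulLeft k) (fun j => u (j⁻¹ * g * j))]
        refine Finset.sum_congr rfl fun j _ => ?_
        congr 1
        rw [hk, Equiv.coe_mulLeft]
        group
      rw [h6]
      simp_rw [h4]
      rw [← Finset.sum_filter, Finset.sum_const, nsmul_eq_mul]
      have h7 : (Finset.univ.filter fun j : G => j⁻¹ * x * j ∈ F).card
          = Nat.card (R x) * Nat.card M := by
        rw [← D.card_conj_mem hx hx1, Nat.card_eq_fintype_card, Fintype.card_subtype]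
      rw [h7]
      simp only [hc]
      have hR : (Nat.card (R x) : ℚ) ≠ 0 := by exact_mod_cast Nat.card_pos.ne'
      push_cast
      field_simp
    · rw [if_neg hg]
      refine Finset.sum_eq_zero fun k _ => ?_
      simp only [hu]
      refine Finset.sum_eq_zero fun x _ => Finset.sum_eq_zero fun r _ => ?_
      rw [if_neg]
      rintro ⟨⟨h5, h5'⟩, h6, h7⟩
      exact hg ⟨x, h5, h5', r, h6, k, by rw [h7]; group⟩
  have h3 : (Nat.card G : ℚ) * ∑ g : G, u g = ∑ g : G, ∑ k : G, u (k⁻¹ * g * k) := by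
    have hcomm : ∑ g : G, ∑ k : G, u (k⁻¹ * g * k) = ∑ k : G, ∑ g : G, u (k⁻¹ * g * k) :=
      Finset.sum_comm
    rw [hcomm]
    have h4 : ∀ k : G, ∑ g : G, u (k⁻¹ * g * k) = ∑ g : G, u g := by
      intro k
      have := Equiv.sum_comp (MulAut.conj k⁻¹).toEquiv u
      rw [← this]
      refine Finset.sum_congr rfl fun g _ => ?_
      have e : (MulAut.conj k⁻¹).toEquiv g = k⁻¹ * g * k := by simp
      rw [e]
    rw [Finset.sum_congr rfl fun k _ => h4 k, Finset.sum_const, Finset.card_univ, nsmul_eq_mul,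
      Nat.card_eq_fintype_card]
  rw [h1, Finset.sum_congr rfl fun g _ => h2 g, ← Finset.sum_filter, Finset.sum_const,
    nsmul_eq_mul] at h3
  have hcard : (Finset.univ.filter fun g : G => g ∈ Att F R).card = Nat.card (Att F R) := by
    rw [Nat.card_eq_fintype_card, Fintype.card_subtype]
  rw [hcard] at h3
  have h5 : (1 : ℕ) ≤ Nat.card F := Nat.card_pos
  have h6 : ((Nat.card (Att F R) * Nat.card M : ℕ) : ℚ) =
      ((Nat.card G * (Nat.card F - 1) : ℕ) : ℚ) := by
    rw [Nat.cast_mul, Nat.cast_mul, Nat.cast_sub h5, Nat.cast_one, ← h3]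
  exact_mod_cast h6

end H51.FT
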