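import Pool.Agent.H51.FT.FM
import Pool.Agent.H51.FT.Att
import Pool.Agent.H57.FT.BadS
import Pool.Agent.H3.FT.S4

/-!
3.9: centralisers of composite elements of `F_M`.
-/

namespace H51.FT

open Subgroup H57.FT
open scoped Pointwise commutatorElement

variable {G : Type*} [Group G]

/-- the power of `x` whose order is the smallest prime divisor of the order of `x` -/
noncomputable def xp (x : G) : G := x ^ (orderOf x / (orderOf x).minFac)

/-- `H(x)` for an arbitrary element `x ≠ 1` -/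
noncomputable def RX (x : G) : Subgroup G := HH (xp x) ⊓ centralizer ({x} : Set G)

lemma xp_mem {x : G} {K : Subgroup G} (hx : x ∈ K) : xp x ∈ K := pow_mem hx _

lemma xp_comm (x : G) : x * xp x = xp x * x := (Commute.self_pow x _).eq

lemma comm_xp {x z : G} (h : z * x = x * z) : z * xp x = xp x * z :=
  (Commute.pow_right (show Commute z x from h) _).eq

lemma xp_conj (g x : G) : xp (g * x * g⁻¹) = g * xp x * g⁻¹ := by
  unfold xp
  rw [IsKp.orderOf_conj, conj_pow]

lemma mem_cent {x z : G} : z ∈ centralizer ({x} : Set G) ↔ z * x = x * z := by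
  rw [mem_centralizer_singleton_iff]

section
variable [Finite G]

lemma minFac_prime {x : G} (hx : x ≠ 1) : (orderOf x).minFac.Prime := by
  apply Nat.minFac_prime
  rw [Ne, orderOf_eq_one_iff]
  exact hx

lemma orderOf_xp {x : G} : orderOf (xp x) = (orderOf x).minFac :=
  orderOf_pow_orderOf_div (orderOf_pos x).ne' (Nat.minFac_dvd _)

lemma xp_ne_one {x : G} (hx : x ≠ 1) : xp x ≠ 1 := by
  intro h
  have := orderOf_xp (x := x)
  rw [h, orderOf_one] at this
  exact (minFac_prime hx).one_lt.ne this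

lemma mem_conj_iff (g y : G) (K : Subgroup G) : y ∈ MulAut.conj g • K ↔ g⁻¹ * y * g ∈ K := by
  rw [Subgroup.mem_pointwise_smul_iff_inv_smul_mem, ← map_inv]
  simp

lemma RX_conj (g x : G) : RX (g * x * g⁻¹) = MulAut.conj g • RX x := by
  unfold RX
  rw [xp_conj, HH_conj, smul_inf]
  congr 1
  ext y
  rw [mem_conj_iff, mem_cent, mem_cent]
  constructor
  · intro h
    calc g⁻¹ * y * g * x = g⁻¹ * (y * (g * x * g⁻¹)) * g := by group
      _ = g⁻¹ * (g * x * g⁻¹ * y) * g := by rw [h]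
      _ = x * (g⁻¹ * y * g) := by group
  · intro h
    calc y * (g * x * g⁻¹) = g * (g⁻¹ * y * g * x) * g⁻¹ := by group
      _ = g * (x * (g⁻¹ * y * g)) * g⁻¹ := by rw [h]
      _ = g * x * g⁻¹ * y := by group

end

variable [Finite G] [IsSimpleGroup G]

/-- `H(x)` meets `N_G(P)` trivially -/
lemma HH_tr (hG : _root_.commutator G = ⊤) (hodd : Odd (Nat.card G))
    (hNA : ∀ H : Subgroup G, H < ⊤ → Group.IsNilpotent (_root_.commutator H))
    {p : ℕ} [Fact p.Prime] (P : Sylow p G) {x h : G} (hx : x ∈ P) (hxp : orderOf x = p)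
    (hh : h ∈ HH x) (hP : h ∈ normalizer (P : Set G)) : h = 1 := by
  have h1 := HH_cop hG hodd hNA P hx hxp
  have h2 := disjoint_of_coprime_natCard h1
  have h3 : h ∈ HH x ⊓ (centralizer ({x} : Set G) ⊓ normalizer (P : Set G)) :=
    ⟨hh, HH_le x hh, hP⟩
  rw [h2.eq_bot, mem_bot] at h3
  exact h3

/-- a Sylow subgroup for `xp x` -/
lemma exists_P (hG : _root_.commutator G = ⊤)
    (hNA : ∀ H : Subgroup G, H < ⊤ → Group.IsNilpotent (_root_.commutator H)) {M : Subgroup G}
    (hM : M < ⊤) {x : G} (hx : x ∈ FM M) (hx1 : x ≠ 1) :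
    ∃ P : Sylow (orderOf (xp x)) G, xp x ∈ P ∧ normalizer (P : Set G) = M := by
  have hp : (orderOf (xp x)).Prime := by rw [orderOf_xp]; exact minFac_prime hx1
  exact FM_elt hG hNA hM (k := 1) hp (xp_mem hx) (xp_ne_one hx1)
    (by rw [pow_one]; exact pow_orderOf_eq_one _)

/-- (3.9) -/
theorem attData (hG : _root_.commutator G = ⊤) (hodd : Odd (Nat.card G))
    (hNA : ∀ H : Subgroup G, H < ⊤ → Group.IsNilpotent (_root_.commutator H)) {M : Subgroup G}
    (hM : M < ⊤) : AttData M (FM M) RX where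
  le := FM_le M
  nor := fun m hm x hx => (mem_normalizer_iff.mp (FM_normal M hm) x).mp hx
  fus := by
    intro x hx hx1 g hg
    obtain ⟨P, hP, hPM⟩ := exists_P hG hNA hM hx hx1
    have hp : (orderOf (xp x)).Prime := by rw [orderOf_xp]; exact minFac_prime hx1
    have hpf : Fact (orderOf (xp x)).Prime := ⟨hp⟩
    have h12 : SylC (orderOf (xp x)) G := sylC hG hNA
    have hyM : g * xp x * g⁻¹ ∈ FM M := by rw [← xp_conj]; exact xp_mem hg
    have hyP : g * xp x * g⁻¹ ∈ P := by
      apply mem_of_mem_normalizer P (k := 1) (hPM ▸ FM_le M hyM)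
      rw [pow_one, conj_pow, pow_orderOf_eq_one, mul_one, mul_inv_cancel]
    obtain ⟨n, hn, c, hc, rfl⟩ := fusion_elt h12 P hP hyP
    obtain ⟨h, hh, m, hm, rfl⟩ := HH_dec hG hodd hNA P hP rfl (mem_cent.mpr hc)
    have hmM : m ∈ M := hPM ▸ hm.2
    have hnM : n ∈ M := hPM ▸ hn
    have hx' : m * x * m⁻¹ ∈ FM M := (mem_normalizer_iff.mp (FM_normal M hmM) x).mp hx
    have hmx : m * xp x = xp x * m := mem_cent.mp hm.1
    have hx'c : m * x * m⁻¹ ∈ centralizer ({xp x} : Set G) := by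
      rw [mem_cent]
      have e1 : m⁻¹ * xp x = xp x * m⁻¹ := by
        rw [inv_mul_eq_iff_eq_mul, ← mul_assoc, hmx, mul_assoc, mul_inv_cancel, mul_one]
      calc m * x * m⁻¹ * xp x = m * x * (m⁻¹ * xp x) := by group
        _ = m * (x * xp x) * m⁻¹ := by rw [e1]; group
        _ = (m * xp x) * x * m⁻¹ := by rw [xp_comm]; group
        _ = xp x * (m * x * m⁻¹) := by rw [hmx]; group
    set x' := m * x * m⁻¹ with hx'def
    have hk1 : h * x' * h⁻¹ ∈ FM M := by
      have h1 := (mem_normalizer_iff.mp (FM_normal M (M.inv_mem hnM)) _).mp hg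
      have e : n⁻¹ * (n * (h * m) * x * (n * (h * m))⁻¹) * n⁻¹⁻¹ = h * x' * h⁻¹ := by
        rw [hx'def]; group
      rw [e] at h1
      exact h1
    have hk2 : h * x' * h⁻¹ * x'⁻¹ ∈ HH (xp x) := by
      have h1 := (mem_normalizer_iff.mp (HH_normal (xp x) hx'c) h⁻¹).mp (inv_mem hh)
      have e : h * x' * h⁻¹ * x'⁻¹ = h * (x' * h⁻¹ * x'⁻¹) := by group
      rw [e]
      exact mul_mem hh h1
    have hk3 : h * x' * h⁻¹ * x'⁻¹ ∈ normalizer (P : Set G) := by
      rw [hPM]
      exact M.mul_mem (FM_le M hk1) (M.inv_mem (FM_le M hx'))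
    have hk4 := HH_tr hG hodd hNA P hP rfl hk2 hk3
    have hk5 : h * x' * h⁻¹ = x' := by rwa [mul_inv_eq_one] at hk4
    refine ⟨n * m, M.mul_mem hnM hmM, ?_⟩
    calc n * m * x * (n * m)⁻¹ = n * (m * x * m⁻¹) * n⁻¹ := by group
      _ = n * x' * n⁻¹ := by rw [← hx'def]
      _ = n * (h * x' * h⁻¹) * n⁻¹ := by rw [hk5]
      _ = n * (h * m) * x * (n * (h * m))⁻¹ := by rw [hx'def]; group
  cen := fun x _ _ r hr => mem_cent.mp hr.2
  nrm := by
    intro x hx hx1 z hz r hr
    refine ⟨(mem_normalizer_iff.mp (HH_normal (xp x) (mem_cent.mpr (comm_xp hz))) r).mp hr.1, ?_⟩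
    change z * r * z⁻¹ ∈ centralizer ({x} : Set G)
    exact mul_mem (mul_mem (mem_cent.mpr hz) hr.2) (inv_mem (mem_cent.mpr hz))
  dec := by
    intro x hx hx1 z hz
    obtain ⟨P, hP, hPM⟩ := exists_P hG hNA hM hx hx1
    have hp : (orderOf (xp x)).Prime := by rw [orderOf_xp]; exact minFac_prime hx1
    have hpf : Fact (orderOf (xp x)).Prime := ⟨hp⟩
    obtain ⟨h, hh, m, hm, rfl⟩ := HH_dec hG hodd hNA P hP rfl (mem_cent.mpr (comm_xp hz))
    have hmM : m ∈ M := hPM ▸ hm.2
    have hxM : x ∈ M := FM_le M hx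
    have hxc : x ∈ centralizer ({xp x} : Set G) := mem_cent.mpr (xp_comm x)
    refine ⟨h, ⟨hh, ?_⟩, m, hmM, rfl⟩
    have e1 : x * h * x⁻¹ ∈ HH (xp x) := (mem_normalizer_iff.mp (HH_normal (xp x) hxc) h).mp hh
    have e2 : h⁻¹ * (x * h * x⁻¹) = m * (x * m * x⁻¹)⁻¹ := by
      have e3 : x * (h * m) * x⁻¹ = h * m := by rw [← hz]; group
      have e4 : (x * h * x⁻¹) * (x * m * x⁻¹) = h * m := by rw [← e3]; group
      rw [inv_mul_eq_iff_eq_mul, ← mul_assoc, eq_mul_inv_iff_mul_eq]
      exact e4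
    have e5 : h⁻¹ * (x * h * x⁻¹) ∈ HH (xp x) := mul_mem (inv_mem hh) e1
    have e6 : h⁻¹ * (x * h * x⁻¹) ∈ normalizer (P : Set G) := by
      rw [e2, hPM]
      exact M.mul_mem hmM (M.inv_mem (M.mul_mem (M.mul_mem hxM hmM) (M.inv_mem hxM)))
    have e7 := HH_tr hG hodd hNA P hP rfl e5 e6
    change h ∈ centralizer ({x} : Set G)
    rw [mem_cent]
    have e8 : x * h * x⁻¹ = h := by
      rw [inv_mul_eq_one] at e7; exact e7.symm
    rw [mul_inv_eq_iff_eq_mul] at e8
    exact e8.symm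
  disj := by
    intro x hx hx1 r hr hrM
    obtain ⟨P, hP, hPM⟩ := exists_P hG hNA hM hx hx1
    have hp : (orderOf (xp x)).Prime := by rw [orderOf_xp]; exact minFac_prime hx1
    have hpf : Fact (orderOf (xp x)).Prime := ⟨hp⟩
    exact HH_tr hG hodd hNA P hP rfl hr.1 (hPM ▸ hrM)
  cop := by
    intro x hx hx1
    obtain ⟨P, hP, hPM⟩ := exists_P hG hNA hM hx hx1
    have hp : (orderOf (xp x)).Prime := by rw [orderOf_xp]; exact minFac_prime hx1
    have hpf : Fact (orderOf (xp x)).Prime := ⟨hp⟩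
    have hcop := HH_cop hG hodd hNA P hP rfl
    rw [Nat.coprime_iff_gcd_eq_one]
    by_contra hne
    obtain ⟨q, hq, hqd⟩ := Nat.exists_prime_and_dvd hne
    have hqf : Fact q.Prime := ⟨hq⟩
    have hq1 : q ∣ Nat.card (HH (xp x)) :=
      (hqd.trans (Nat.gcd_dvd_left _ _)).trans (card_dvd_of_le inf_le_left)
    obtain ⟨w, hw⟩ := exists_prime_orderOf_dvd_card' (G := FM M) q
      (hqd.trans (Nat.gcd_dvd_right _ _))
    have hw' : orderOf (w : G) = q := by rw [orderOf_submonoid]; exact hw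
    have hw1 : (w : G) ≠ 1 := by
      intro h1
      rw [h1, orderOf_one] at hw'
      exact hq.one_lt.ne hw'
    have hk : (w : G) ^ q ^ 1 = 1 := by rw [pow_one, ← hw']; exact pow_orderOf_eq_one _
    obtain ⟨S, hwS, hS⟩ := FM_elt hG hNA hM hq w.2 hw1 hk
    have hdvd : q ∣ Nat.card (centralizer ({xp x} : Set G) ⊓ normalizer (P : Set G) :
        Subgroup G) := by
      by_cases hqp : q = orderOf (xp x)
      · have h1 : xp x ∈ centralizer ({xp x} : Set G) ⊓ normalizer (P : Set G) :=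
          ⟨mem_cent.mpr rfl, le_normalizer hP⟩
        have h2 := orderOf_dvd_natCard (⟨xp x, h1⟩ : (centralizer ({xp x} : Set G) ⊓
          normalizer (P : Set G) : Subgroup G))
        rw [← orderOf_submonoid] at h2
        rw [hqp]
        exact h2
      · have hPS : (Nat.card P).Coprime (Nat.card S) :=
          IsPGroup.coprime_card_of_ne _ _ (fun h => hqp h.symm) _ _ P.2 S.2
        have h1 : (P : Subgroup G) ≤ normalizer ((S : Subgroup G) : Set G) := by
          change (P : Subgroup G) ≤ normalizer (S : Set G)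
          rw [hS, ← hPM]; exact le_normalizer
        have h2 : (S : Subgroup G) ≤ normalizer ((P : Subgroup G) : Set G) := by
          change (S : Subgroup G) ≤ normalizer (P : Set G)
          rw [hPM, ← hS]; exact le_normalizer
        have h3 := commute_of_coprime (A := (P : Subgroup G)) (B := (S : Subgroup G)) hPS h1 h2
          (xp x) hP w hwS
        have h4 : (w : G) ∈ centralizer ({xp x} : Set G) ⊓ normalizer (P : Set G) :=
          ⟨mem_cent.mpr h3.symm, hPM ▸ FM_le M w.2⟩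
        have h2 := orderOf_dvd_natCard (⟨(w : G), h4⟩ : (centralizer ({xp x} : Set G) ⊓
          normalizer (P : Set G) : Subgroup G))
        rw [← orderOf_submonoid] at h2
        rw [← hw']
        exact h2
    exact hq.one_lt.ne' (Nat.eq_one_of_dvd_coprimes hcop hq1 hdvd)
  conj := by
    intro x hx hx1 m hm r hr
    rw [RX_conj, mem_conj_iff]
    have e : m⁻¹ * (m * r * m⁻¹) * m = r := by group
    rw [e]
    exact hr

/-- `H(x) = 1` as soon as a nontrivial power of `x` has its centraliser in `M` -/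
theorem RX_bot (hG : _root_.commutator G = ⊤) (hodd : Odd (Nat.card G))
    (hNA : ∀ H : Subgroup G, H < ⊤ → Group.IsNilpotent (_root_.commutator H)) {M : Subgroup G}
    (hM : M < ⊤) {x : G} (hx : x ∈ FM M) (hx1 : x ≠ 1) {i : ℕ}
    (hi : centralizer ({x ^ i} : Set G) ≤ M) : RX x = ⊥ := by
  rw [eq_bot_iff]
  intro r hr
  rw [mem_bot]
  refine (attData hG hodd hNA hM).disj x hx hx1 r hr (hi ?_)
  rw [mem_cent]
  exact (Commute.pow_right (show Commute r x from mem_cent.mp hr.2) i).eq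

/-- the elements attached to non-conjugate `M`, `N` are different -/
theorem att_disj (hG : _root_.commutator G = ⊤) (hodd : Odd (Nat.card G))
    (hNA : ∀ H : Subgroup G, H < ⊤ → Group.IsNilpotent (_root_.commutator H)) {M N : Subgroup G}
    (hM : M < ⊤) (hN : N < ⊤) (h : NC M N) {g : G} (h1 : g ∈ Att (FM M) RX)
    (h2 : g ∈ Att (FM N) RX) : False := by
  obtain ⟨x, hx, hx1, r, hr, k, rfl⟩ := h1
  obtain ⟨y', hy', hy1', r', hr', k', hk'⟩ := h2
  -- replace `N` by a conjugate
  set c : G := k⁻¹ * k' with hc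
  set y : G := c * y' * c⁻¹ with hy
  set s : G := c * r' * c⁻¹ with hs
  have hxy : x * r = y * s := by
    have e : y * s = k⁻¹ * (k' * (y' * r') * k'⁻¹) * k := by rw [hy, hs, hc]; group
    rw [e, ← hk']; group
  set N' : Subgroup G := MulAut.conj c • N with hN'def
  have hN' : N' < ⊤ := by
    rw [lt_top_iff_ne_top]
    intro htop
    apply hN.ne
    have : MulAut.conj c⁻¹ • N' = MulAut.conj c⁻¹ • ⊤ := by rw [htop]
    rw [hN'def, map_inv, inv_smul_smul] at this
    rw [this, ← map_inv]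
    exact Subgroup.conj_smul_eq_self_of_mem (mem_top _)
  have hNC : NC M N' := by
    intro g hg
    apply h (c⁻¹ * g)
    rw [map_mul, mul_smul, hg, hN'def, map_inv, inv_smul_smul]
  have hyN : y ∈ FM N' := by
    rw [hN'def, ← conj_FM, mem_conj_iff, hy]
    have e : c⁻¹ * (c * y' * c⁻¹) * c = y' := by group
    rw [e]; exact hy'
  have hy1 : y ≠ 1 := by rw [hy]; exact AttData.ne_one hy1'
  have hsN : s ∈ RX y := by
    rw [hy, RX_conj, mem_conj_iff, hs]
    have e : c⁻¹ * (c * r' * c⁻¹) * c = r' := by group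
    rw [e]; exact hr'
  have hcopMN := FM_coprime hG hNA hM hN' hNC
  have hcop : (orderOf x).Coprime (orderOf y) := by
    have e1 : orderOf x ∣ Nat.card (FM M) := by
      have := orderOf_dvd_natCard (⟨x, hx⟩ : FM M)
      rwa [← orderOf_submonoid] at this
    have e2 : orderOf y ∣ Nat.card (FM N') := by
      have := orderOf_dvd_natCard (⟨y, hyN⟩ : FM N')
      rwa [← orderOf_submonoid] at this
    exact Nat.Coprime.coprime_dvd_left e1 (Nat.Coprime.coprime_dvd_right e2 hcopMN)
  have DM := attData hG hodd hNA hM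
  have DN := attData hG hodd hNA hN'
  -- a general statement, used twice
  have key : ∀ {K : Subgroup G} {a b u v : G}, AttData K (FM K) RX → a ∈ FM K → a ≠ 1 →
      u ∈ RX a → v * b = b * v → a * u = b * v → (∃ j : ℕ, (b * v) ^ j = b) →
      (orderOf a).Coprime (orderOf b) → b ∈ RX a := by
    intro K a b u v D ha ha1 hu hbv he hj hab
    obtain ⟨j, hj⟩ := hj
    rw [← he] at hj
    have hau : Commute a u := (D.cen a ha ha1 u hu).symm
    rw [hau.mul_pow] at hj
    have h3 : (a ^ j) ^ orderOf b = 1 := by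
      have h4 : (a ^ j * u ^ j) ^ orderOf b = 1 := by rw [hj]; exact pow_orderOf_eq_one b
      rw [(hau.pow_pow j j).mul_pow] at h4
      have h5 : (a ^ j) ^ orderOf b = ((u ^ j) ^ orderOf b)⁻¹ := by rwa [mul_eq_one_iff_eq_inv] at h4
      have h6 : (a ^ j) ^ orderOf b ∈ RX a := by
        rw [h5]; exact inv_mem (pow_mem (pow_mem hu _) _)
      exact D.disj a ha ha1 _ h6 (pow_mem (pow_mem (D.le ha) _) _)
    have h4 : a ^ j = 1 := by
      have h5 : orderOf (a ^ j) ∣ orderOf b := orderOf_dvd_of_pow_eq_one h3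
      have h6 : orderOf (a ^ j) ∣ orderOf a := orderOf_pow_dvd j
      exact orderOf_eq_one_iff.mp (Nat.eq_one_of_dvd_coprimes hab h6 h5)
    rw [h4, one_mul] at hj
    rw [← hj]
    exact pow_mem hu _
  -- both `x` and `y` are powers of `x r = y s`
  have hpow : ∀ {K : Subgroup G} {a u : G}, AttData K (FM K) RX → a ∈ FM K → a ≠ 1 →
      u ∈ RX a → ∃ j : ℕ, (a * u) ^ j = a := by
    intro K a u D ha ha1 hu
    have hc1 : (orderOf a).Coprime (orderOf u) := by
      have e1 : orderOf a ∣ Nat.card (FM K) := by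
        have := orderOf_dvd_natCard (⟨a, ha⟩ : FM K)
        rwa [← orderOf_submonoid] at this
      have e2 : orderOf u ∣ Nat.card (RX a) := by
        have := orderOf_dvd_natCard (⟨u, hu⟩ : RX a)
        rwa [← orderOf_submonoid] at this
      exact Nat.Coprime.coprime_dvd_left e1 (Nat.Coprime.coprime_dvd_right e2
        (D.cop a ha ha1).symm)
    obtain ⟨j, hj1, hj2⟩ := Nat.chineseRemainder hc1 1 0
    refine ⟨j, ?_⟩
    have hau : Commute a u := (D.cen a ha ha1 u hu).symm
    rw [hau.mul_pow]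
    have h1 : a ^ j = a := by
      have h3 : a ^ j = a ^ 1 := pow_eq_pow_iff_modEq.2 hj1
      rw [h3, pow_one]
    have h2 : u ^ j = 1 := by
      have h3 : u ^ j = u ^ 0 := pow_eq_pow_iff_modEq.2 hj2
      rw [h3, pow_zero]
    rw [h1, h2, mul_one]
  have hyx : y ∈ RX x := key DM hx hx1 hr (DN.cen y hyN hy1 s hsN) hxy (hpow DN hyN hy1 hsN) hcop
  have hxy' : x ∈ RX y := key DN hyN hy1 hsN (DM.cen x hx hx1 r hr) hxy.symm
    (hpow DM hx hx1 hr) hcop.symm
  obtain ⟨P, hP, -⟩ := exists_P hG hNA hM hx hx1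
  obtain ⟨Q, hQ, -⟩ := exists_P hG hNA hN' hyN hy1
  have hp : (orderOf (xp x)).Prime := by rw [orderOf_xp]; exact minFac_prime hx1
  have hq : (orderOf (xp y)).Prime := by rw [orderOf_xp]; exact minFac_prime hy1
  have hpf : Fact (orderOf (xp x)).Prime := ⟨hp⟩
  have hqf : Fact (orderOf (xp y)).Prime := ⟨hq⟩
  have hpq : orderOf (xp x) ≠ orderOf (xp y) := by
    intro he
    have e1 : orderOf (xp x) ∣ orderOf x := orderOf_pow_dvd _
    have e2 : orderOf (xp y) ∣ orderOf y := orderOf_pow_dvd _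
    rw [← he] at e2
    exact hp.one_lt.ne' (Nat.eq_one_of_dvd_coprimes hcop e1 e2)
  exact Pool.Agent.H3.FT.four_four' hG hodd hNA P hpq Q hP rfl hQ rfl
    (xp_mem hyx.1) (xp_mem hxy'.1)

end H51.FT
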