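import Pool.Agent.H51.FT.Kp

/-!
The group `F_M`, the product of the Sylow subgroups of `G` which are normal in `M`.
-/

namespace H51.FT

open Subgroup
open scoped Pointwise commutatorElement

variable {G : Type*} [Group G]

/-- `M` and `N` are not conjugate -/
def NC (M N : Subgroup G) : Prop := ∀ g : G, MulAut.conj g • M ≠ N

/-- the product of the Sylow subgroups with normaliser `M` -/
def FM (M : Subgroup G) : Subgroup G :=
  closure {x | ∃ s : ℕ, s.Prime ∧ ∃ S : Sylow s G, x ∈ S ∧ normalizer (S : Set G) = M}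

lemma NC.symm {M N : Subgroup G} (h : NC M N) : NC N M := by
  intro g hg
  apply h g⁻¹
  rw [← hg, map_inv, inv_smul_smul]

lemma conj_smul_normalizer (g : G) (S : Subgroup G) :
    MulAut.conj g • normalizer (S : Set G) = normalizer ((MulAut.conj g • S : Subgroup G) : Set G) := by
  ext x
  rw [Subgroup.mem_pointwise_smul_iff_inv_smul_mem, mem_normalizer_iff, mem_normalizer_iff]
  have e : (MulAut.conj g)⁻¹ • x = g⁻¹ * x * g := by
    rw [← map_inv]; simp [MulAut.conj_apply]
  rw [e]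
  constructor
  · intro h y
    rw [Subgroup.mem_pointwise_smul_iff_inv_smul_mem, Subgroup.mem_pointwise_smul_iff_inv_smul_mem,
      ← map_inv]
    have := h (g⁻¹ * y * g)
    simp only [MulAut.smul_def, MulAut.conj_apply, inv_inv]
    rw [this]
    have e2 : g⁻¹ * x * g * (g⁻¹ * y * g) * (g⁻¹ * x * g)⁻¹ = g⁻¹ * (x * y * x⁻¹) * g := by group
    rw [e2]
  · intro h y
    have := h (g * y * g⁻¹)
    rw [Subgroup.mem_pointwise_smul_iff_inv_smul_mem, Subgroup.mem_pointwise_smul_iff_inv_smul_mem,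
      ← map_inv] at this
    simp only [MulAut.smul_def, MulAut.conj_apply, inv_inv] at this
    have e1 : g⁻¹ * (g * y * g⁻¹) * g = y := by group
    have e2 : g⁻¹ * (x * (g * y * g⁻¹) * x⁻¹) * g = g⁻¹ * x * g * y * (g⁻¹ * x * g)⁻¹ := by group
    rw [e1, e2] at this
    exact this

lemma sylow_normalizer_smul {p : ℕ} (g : G) (S : Sylow p G) :
    MulAut.conj g • normalizer (S : Set G) = normalizer ((g • S : Sylow p G) : Set G) :=
  conj_smul_normalizer g (S : Subgroup G)

lemma le_FM {s : ℕ} (hs : s.Prime) (S : Sylow s G) :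
    (S : Subgroup G) ≤ FM (normalizer (S : Set G)) := by
  intro x hx
  exact subset_closure ⟨s, hs, S, hx, rfl⟩

lemma le_FM' {s : ℕ} (hs : s.Prime) (S : Sylow s G) {M : Subgroup G}
    (h : normalizer (S : Set G) = M) : (S : Subgroup G) ≤ FM M := by
  subst h; exact le_FM hs S

lemma FM_le (M : Subgroup G) : FM M ≤ M := by
  unfold FM
  rw [closure_le]
  rintro x ⟨s, hs, S, hx, rfl⟩
  exact le_normalizer hx

lemma conj_FM (g : G) (M : Subgroup G) : MulAut.conj g • FM M = FM (MulAut.conj g • M) := by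
  have key : ∀ (g : G) (M : Subgroup G), MulAut.conj g • FM M ≤ FM (MulAut.conj g • M) := by
    intro g M
    rw [Subgroup.pointwise_smul_subset_iff]
    unfold FM
    rw [closure_le]
    rintro x ⟨s, hs, S, hx, hS⟩
    have h1 : g * x * g⁻¹ ∈ FM (MulAut.conj g • M) := by
      apply le_FM' hs (g • S)
      · rw [← sylow_normalizer_smul, hS]
      · exact Subgroup.smul_mem_pointwise_smul x (MulAut.conj g) (S : Subgroup G) hx
    change x ∈ (MulAut.conj g)⁻¹ • (FM (MulAut.conj g • M))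
    rw [Subgroup.mem_inv_pointwise_smul_iff]
    exact h1
  apply le_antisymm (key g M)
  rw [Subgroup.subset_pointwise_smul_iff, ← map_inv]
  refine (key g⁻¹ _).trans ?_
  rw [map_inv, inv_smul_smul]

lemma FM_normal (M : Subgroup G) : M ≤ normalizer (FM M : Set G) := by
  intro g hg
  have h1 : MulAut.conj g • FM M = FM M := by
    rw [conj_FM, Subgroup.conj_smul_eq_self_of_mem hg]
  rw [mem_normalizer_iff]
  intro x
  constructor
  · intro hx
    have h3 := Subgroup.smul_mem_pointwise_smul x (MulAut.conj g) (FM M) hx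
    rw [h1] at h3
    exact h3
  · intro hx
    have h3 : MulAut.conj g • x ∈ MulAut.conj g • FM M := by rw [h1]; exact hx
    exact Subgroup.smul_mem_pointwise_smul_iff.mp h3

section
variable [Finite G] [IsSimpleGroup G]

lemma FM_le_comm (hG : _root_.commutator G = ⊤)
    (hNA : ∀ H : Subgroup G, H < ⊤ → Group.IsNilpotent (_root_.commutator H)) (M : Subgroup G) :
    FM M ≤ ⁅M, M⁆ := by
  unfold FM
  rw [closure_le]
  rintro x ⟨s, hs, S, hx, rfl⟩
  have : Fact s.Prime := ⟨hs⟩
  exact ((le_comm_normalizer (sylC hG hNA) S hG).trans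
    (commutator_mono le_normalizer le_rfl)) hx

lemma FM_nil (hG : _root_.commutator G = ⊤)
    (hNA : ∀ H : Subgroup G, H < ⊤ → Group.IsNilpotent (_root_.commutator H)) {M : Subgroup G}
    (hM : M < ⊤) : Group.IsNilpotent (FM M) := by
  have h1 := nil_comm (hNA M hM)
  have h2 := FM_le_comm hG hNA M
  have : Group.IsNilpotent ((FM M).subgroupOf ⁅M, M⁆) := inferInstance
  exact Group.nilpotent_of_mulEquiv (subgroupOfEquivOfLe h2)

omit [IsSimpleGroup G] in
/-- an `s`-element normalising a Sylow `s`-subgroup belongs to it -/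
lemma mem_of_mem_normalizer {s : ℕ} [Fact s.Prime] (S : Sylow s G) {x : G} {k : ℕ}
    (hx : x ∈ normalizer (S : Set G)) (hk : x ^ s ^ k = 1) : x ∈ S := by
  have hpz : IsPGroup s (zpowers x) := by
    rintro ⟨w, hw⟩
    obtain ⟨i, rfl⟩ := mem_zpowers_iff.mp hw
    refine ⟨k, ?_⟩
    apply Subtype.ext
    change (x ^ i) ^ s ^ k = 1
    rw [← zpow_natCast, ← zpow_mul, mul_comm, zpow_mul, zpow_natCast, hk, one_zpow]
  have h1 := hpz.inf_normalizer_sylow S
  have h2 : x ∈ zpowers x ⊓ normalizer (S : Set G) := ⟨mem_zpowers x, hx⟩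
  rw [h1] at h2
  exact h2.2

/-- an `s`-element of `F_M` lies in a Sylow `s`-subgroup with normaliser `M` -/
lemma FM_elt (hG : _root_.commutator G = ⊤)
    (hNA : ∀ H : Subgroup G, H < ⊤ → Group.IsNilpotent (_root_.commutator H)) {M : Subgroup G}
    (hM : M < ⊤) {s : ℕ} (hs : s.Prime) {x : G} {k : ℕ} (hx : x ∈ FM M) (hx1 : x ≠ 1)
    (hk : x ^ s ^ k = 1) : ∃ S : Sylow s G, x ∈ S ∧ normalizer (S : Set G) = M := by
  have hsf : Fact s.Prime := ⟨hs⟩
  by_cases h : ∃ S : Sylow s G, normalizer (S : Set G) = M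
  · obtain ⟨S, hS⟩ := h
    refine ⟨S, ?_, hS⟩
    exact mem_of_mem_normalizer S (hS ▸ FM_le M hx) hk
  · exfalso
    obtain ⟨K, hK⟩ := exists_isKp (p := s) (hNA M hM)
    have h1 : FM M ≤ K := by
      unfold FM
      rw [closure_le]
      rintro y ⟨t, ht, T, hy, hT⟩
      have htf : Fact t.Prime := ⟨ht⟩
      refine (hK.mem y).mpr ⟨FM_le_comm hG hNA M (le_FM' ht T hT hy), ?_⟩
      have hts : t ≠ s := by
        rintro rfl
        exact h ⟨T, hT⟩
      obtain ⟨j, hj⟩ := T.2 ⟨y, hy⟩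
      have hj' : y ^ t ^ j = 1 := congrArg Subtype.val hj
      refine Nat.Coprime.coprime_dvd_left (orderOf_dvd_of_pow_eq_one hj') ?_
      exact Nat.Coprime.pow_left _ ((Nat.coprime_primes ht hs).mpr hts)
    have h2 := ((hK.mem x).mp (h1 hx)).2
    have h3 : orderOf x ∣ s ^ k := orderOf_dvd_of_pow_eq_one hk
    have h4 : orderOf x = 1 := Nat.eq_one_of_dvd_coprimes (h2.pow_right k) dvd_rfl h3
    exact hx1 (orderOf_eq_one_iff.mp h4)

/-- for non-conjugate `M`, `N` the orders of `F_M` and `F_N` are coprime -/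
lemma FM_coprime (hG : _root_.commutator G = ⊤)
    (hNA : ∀ H : Subgroup G, H < ⊤ → Group.IsNilpotent (_root_.commutator H)) {M N : Subgroup G}
    (hM : M < ⊤) (hN : N < ⊤) (h : NC M N) : (Nat.card (FM M)).Coprime (Nat.card (FM N)) := by
  rw [Nat.coprime_iff_gcd_eq_one]
  by_contra hne
  obtain ⟨q, hq, hqd⟩ := Nat.exists_prime_and_dvd hne
  have hqf : Fact q.Prime := ⟨hq⟩
  have key : ∀ {M : Subgroup G}, M < ⊤ → q ∣ Nat.card (FM M) →
      ∃ S : Sylow q G, normalizer (S : Set G) = M := by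
    intro M hM hd
    obtain ⟨x, hx⟩ := exists_prime_orderOf_dvd_card' (G := FM M) q hd
    have hx1 : (x : G) ≠ 1 := by
      intro h1
      have h1' : x = 1 := Subtype.ext h1
      rw [h1', orderOf_one] at hx
      exact hq.one_lt.ne hx
    have hk : (x : G) ^ q ^ 1 = 1 := by
      have := pow_orderOf_eq_one x
      rw [hx] at this
      rw [pow_one]
      exact congrArg Subtype.val this
    obtain ⟨S, -, hS⟩ := FM_elt hG hNA hM hq x.2 hx1 hk
    exact ⟨S, hS⟩
  obtain ⟨S, hS⟩ := key hM (hqd.trans (Nat.gcd_dvd_left _ _))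
  obtain ⟨T, hT⟩ := key hN (hqd.trans (Nat.gcd_dvd_right _ _))
  obtain ⟨g, hg⟩ := MulAction.exists_smul_eq G S T
  apply h g
  rw [← hS, ← hT, sylow_normalizer_smul, hg]

/-- `F_M` is a Hall subgroup of `G` -/
lemma FM_hall (hG : _root_.commutator G = ⊤)
    (hNA : ∀ H : Subgroup G, H < ⊤ → Group.IsNilpotent (_root_.commutator H)) {M : Subgroup G}
    (hM : M < ⊤) : (Nat.card (FM M)).Coprime (FM M).index := by
  rw [Nat.coprime_iff_gcd_eq_one]
  by_contra hne
  obtain ⟨q, hq, hqd⟩ := Nat.exists_prime_and_dvd hne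
  have hqf : Fact q.Prime := ⟨hq⟩
  obtain ⟨x, hx⟩ := exists_prime_orderOf_dvd_card' (G := FM M) q (hqd.trans (Nat.gcd_dvd_left _ _))
  have hx1 : (x : G) ≠ 1 := by
    intro h1
    have h1' : x = 1 := Subtype.ext h1
    rw [h1', orderOf_one] at hx
    exact hq.one_lt.ne hx
  have hk : (x : G) ^ q ^ 1 = 1 := by
    have := pow_orderOf_eq_one x
    rw [hx] at this
    rw [pow_one]
    exact congrArg Subtype.val this
  obtain ⟨S, -, hS⟩ := FM_elt hG hNA hM hq x.2 hx1 hk
  have h1 : (S : Subgroup G) ≤ FM M := le_FM' hq S hS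
  exact S.not_dvd_index ((hqd.trans (Nat.gcd_dvd_right _ _)).trans (index_dvd_of_le h1))

end

end H51.FT
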