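import Pool.Agent.H51.FT.AttM
import Pool.Agent.H91.FT.Base

/-!
5.3: all elements of prime order of `Z = N(P) ⊓ N(Q)` are good.
-/

namespace H51.FT

open Subgroup H57.FT
open scoped Pointwise commutatorElement

variable {G : Type*} [Group G] [Finite G] [IsSimpleGroup G]

/-- the statement of 5.1 used here -/
def S51 (G : Type*) [Group G] [Finite G] : Prop :=
  ∀ {p s : ℕ} [Fact p.Prime] [Fact s.Prime] (P : Sylow p G) (S : Sylow s G) (x u : G),
    Good P x → orderOf x = p → Bad S u → x * u = u * x →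
    NC (normalizer (P : Set G)) (normalizer (S : Set G)) → x ∈ HH u

/-- the statement of 5.2 used here -/
def S52 (G : Type*) [Group G] [Finite G] : Prop :=
  ∀ {p q : ℕ} [Fact p.Prime] [Fact q.Prime] (P : Sylow p G) (Q : Sylow q G) (x y : G),
    Good P x → orderOf x = p → Good Q y → orderOf y = q → x * y = y * x →
    NC (normalizer (P : Set G)) (normalizer (Q : Set G)) →
    (∀ a ∈ normalizer (P : Set G) ⊓ normalizer (Q : Set G),
      ∀ b ∈ normalizer (P : Set G) ⊓ normalizer (Q : Set G), a * b = b * a) ∧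
    (∀ m ∈ normalizer (P : Set G), ∃ f ∈ FM (normalizer (P : Set G)),
      ∃ z ∈ normalizer (P : Set G) ⊓ normalizer (Q : Set G), m = f * z)

/-- if a good element `x` of `P` lies in `H(u)` then `C(u) ≤ N(P)` -/
lemma cent_le_of_mem_HH (hG : _root_.commutator G = ⊤)
    (hNA : ∀ H : Subgroup G, H < ⊤ → Group.IsNilpotent (_root_.commutator H))
    {p : ℕ} [hp : Fact p.Prime] (P : Sylow p G) {x u : G} (hx : Good P x) (hxp : orderOf x = p)
    (hu : u ≠ 1) (h : x ∈ HH u) : centralizer ({u} : Set G) ≤ normalizer (P : Set G) := by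
  have hnil := HH_nil hG hNA hu
  have hJ : IsPGroup p (Pool.Agent.H91.FT.qp p (HH u)) :=
    Pool.Agent.H91.FT.isPGroup_qp hp.out hnil
  have hxJ : x ∈ Pool.Agent.H91.FT.qp p (HH u) :=
    Pool.Agent.H91.FT.mem_qp (k := 1) h (by rw [pow_one, ← hxp]; exact pow_orderOf_eq_one x)
  refine le_trans ?_ (hx.normalizer_le (sylC hG hNA) hJ hxJ)
  intro g hg
  apply Pool.Agent.H91.FT.mem_norm
  intro k hk
  exact Pool.Agent.H91.FT.qp_conj
    (fun y hy => (mem_normalizer_iff.mp (HH_normal u hg) y).mp hy) hk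

/-- the last step: `C_S(u)` is contained in the abelian group `Z`, so it centralises
`x ∈ H(u)` -/
lemma five_three_aux (hG : _root_.commutator G = ⊤) (hodd : Odd (Nat.card G))
    (hNA : ∀ H : Subgroup G, H < ⊤ → Group.IsNilpotent (_root_.commutator H))
    {s : ℕ} [Fact s.Prime] (S : Sylow s G) {x u : G} (huS : u ∈ S) (hus : orderOf u = s)
    {Z : Subgroup G} (hZ : ∀ a ∈ Z, ∀ b ∈ Z, a * b = b * a) (hxZ : x ∈ Z) (hx1 : x ≠ 1)
    (hxH : x ∈ HH u) (hR : ∀ r ∈ S, r * u = u * r → r ∈ Z) : False := by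
  apply hx1
  apply HH_fix hG hodd hNA S huS hus hxH
  intro r hr hru
  exact hZ r (hR r hr hru) x hxZ

/-- (5.3) -/
theorem five_three (hG : _root_.commutator G = ⊤) (hodd : Odd (Nat.card G))
    (hNA : ∀ H : Subgroup G, H < ⊤ → Group.IsNilpotent (_root_.commutator H))
    (h51 : S51 G) (h52 : S52 G)
    {p q : ℕ} [Fact p.Prime] [Fact q.Prime] (P : Sylow p G) (Q : Sylow q G) {x y : G}
    (hx : Good P x) (hxp : orderOf x = p) (hy : Good Q y) (hyq : orderOf y = q)
    (hxy : x * y = y * x) (hNC : NC (normalizer (P : Set G)) (normalizer (Q : Set G)))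
    {s : ℕ} [hs : Fact s.Prime] {u : G} (hu : orderOf u = s)
    (huZ : u ∈ normalizer (P : Set G) ⊓ normalizer (Q : Set G)) : ∃ S : Sylow s G, Good S u := by
  have h12 : SylC s G := sylC hG hNA
  obtain ⟨hZ, -⟩ := h52 P Q x y hx hxp hy hyq hxy hNC
  set Z := normalizer (P : Set G) ⊓ normalizer (Q : Set G) with hZdef
  have hxZ : x ∈ Z := by
    refine ⟨le_normalizer hx.1, hy.2.2 ?_⟩
    exact mem_cent.mpr hxy
  have hyZ : y ∈ Z := by
    refine ⟨hx.2.2 ?_, le_normalizer hy.1⟩
    exact mem_cent.mpr hxy.symm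
  have hxu : x * u = u * x := hZ x hxZ u huZ
  have hyu : y * u = u * y := hZ y hyZ u huZ
  have hu1 : u ≠ 1 := by
    intro h
    rw [h, orderOf_one] at hu
    exact hs.out.one_lt.ne hu
  have hus : u ^ s ^ 1 = 1 := by rw [pow_one, ← hu]; exact pow_orderOf_eq_one u
  by_contra hcon
  have hbad : ∀ S : Sylow s G, u ∈ S → Bad S u := by
    intro S hS
    refine ⟨hS, hu, fun h => hcon ⟨S, hS, hu1, h⟩⟩
  -- a Sylow subgroup containing `u`, and the two cases of a normal one
  have hMS : ∀ {r : ℕ} [Fact r.Prime] (R : Sylow r G), u ∈ normalizer (R : Set G) →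
      (∃ T : Sylow s G, ∃ g : G, MulAut.conj g • normalizer (R : Set G) =
        normalizer (T : Set G)) → ∃ S : Sylow s G, u ∈ S ∧
        normalizer (S : Set G) = normalizer (R : Set G) := by
    rintro r _ R huR ⟨T, g, hT⟩
    refine ⟨g⁻¹ • T, ?_, ?_⟩
    · apply mem_of_mem_normalizer (g⁻¹ • T) (k := 1) _ hus
      rw [← sylow_normalizer_smul, ← hT, map_inv, inv_smul_smul]
      exact huR
    · rw [← sylow_normalizer_smul, ← hT, map_inv, inv_smul_smul]
  by_cases c1 : ∃ T : Sylow s G, ∃ g : G, MulAut.conj g • normalizer (P : Set G) =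
        normalizer (T : Set G)
  · -- `s ∈ σ(N(P))`
    obtain ⟨S, huS, hS⟩ := hMS P huZ.1 c1
    have hb := hbad S huS
    have hyH : y ∈ HH u := by
      apply h51 Q S y u hy hyq hb hyu
      rw [hS]; exact hNC.symm
    have hc := cent_le_of_mem_HH hG hNA Q hy hyq hu1 hyH
    refine five_three_aux hG hodd hNA S huS hu hZ hyZ hy.2.1 hyH ?_
    intro r hr hru
    refine ⟨?_, hc (mem_cent.mpr hru)⟩
    change r ∈ normalizer (P : Set G)
    rw [← hS]; exact le_normalizer hr
  · by_cases c2 : ∃ T : Sylow s G, ∃ g : G, MulAut.conj g • normalizer (Q : Set G) =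
        normalizer (T : Set G)
    · obtain ⟨S, huS, hS⟩ := hMS Q huZ.2 c2
      have hb := hbad S huS
      have hxH : x ∈ HH u := by
        apply h51 P S x u hx hxp hb hxu
        rw [hS]; exact hNC
      have hc := cent_le_of_mem_HH hG hNA P hx hxp hu1 hxH
      refine five_three_aux hG hodd hNA S huS hu hZ hxZ hx.2.1 hxH ?_
      intro r hr hru
      refine ⟨hc (mem_cent.mpr hru), ?_⟩
      change r ∈ normalizer (Q : Set G)
      rw [← hS]; exact le_normalizer hr
    · have hpz : IsPGroup s (zpowers u) := by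
        rintro ⟨w, hw⟩
        obtain ⟨i, rfl⟩ := mem_zpowers_iff.mp hw
        refine ⟨1, ?_⟩
        apply Subtype.ext
        change (u ^ i) ^ s ^ 1 = 1
        rw [← zpow_natCast, ← zpow_mul, mul_comm, zpow_mul, zpow_natCast, hus, one_zpow]
      obtain ⟨S, hS⟩ := hpz.exists_le_sylow
      have huS : u ∈ S := hS (mem_zpowers u)
      have hb := hbad S huS
      have hxH : x ∈ HH u := by
        apply h51 P S x u hx hxp hb hxu
        intro g hg
        exact c1 ⟨S, g, hg⟩
      have hyH : y ∈ HH u := by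
        apply h51 Q S y u hy hyq hb hyu
        intro g hg
        exact c2 ⟨S, g, hg⟩
      have hc1 := cent_le_of_mem_HH hG hNA P hx hxp hu1 hxH
      have hc2 := cent_le_of_mem_HH hG hNA Q hy hyq hu1 hyH
      refine five_three_aux hG hodd hNA S huS hu hZ hxZ hx.2.1 hxH ?_
      intro r hr hru
      exact ⟨hc1 (mem_cent.mpr hru), hc2 (mem_cent.mpr hru)⟩

end H51.FT
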