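import Pool.Agent.H51.FT.Five3
import Pool.Agent.H1.FT.TI
import Pool.Agent.H3.FT.Cop1

/-!
5.4: good elements of prime order of non-conjugate `N(P)`, `N(Q)` do not commute.
-/

namespace H51.FT

open Subgroup H57.FT
open scoped Pointwise commutatorElement

variable {G : Type*} [Group G]

lemma card_dvd_le {a b : ℕ} (h : a ∣ b) (hne : a ≠ b) (hb : 0 < b) : 2 * a ≤ b := by
  obtain ⟨c, rfl⟩ := h
  have h1 : c ≠ 0 := by rintro rfl; simp at hb
  have h2 : c ≠ 1 := by rintro rfl; simp at hne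
  have h3 : 2 ≤ c := by omega
  calc 2 * a ≤ c * a := Nat.mul_le_mul_right _ h3
    _ = a * c := Nat.mul_comm _ _

/-- the order of a product `K = F Z` -/
lemma card_prod_eq [Finite G] {K F Z : Subgroup G} (hF : F ≤ K) (hZ : Z ≤ K)
    (h : ∀ m ∈ K, ∃ f ∈ F, ∃ z ∈ Z, m = f * z) :
    Nat.card K * Nat.card (F ⊓ Z : Subgroup G) = Nat.card F * Nat.card Z := by
  rw [← Nat.card_prod, ← Nat.card_prod]
  choose! f hf z hz hfz using h
  refine Nat.card_congr (Equiv.ofBijective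
    (fun p : K × (F ⊓ Z : Subgroup G) =>
      ((⟨f p.1 * p.2, F.mul_mem (hf _ p.1.2) p.2.2.1⟩ : F),
        (⟨(p.2 : G)⁻¹ * z p.1, Z.mul_mem (Z.inv_mem p.2.2.2) (hz _ p.1.2)⟩ : Z))) ⟨?_, ?_⟩)
  · rintro ⟨⟨m, hm⟩, ⟨u, hu⟩⟩ ⟨⟨m', hm'⟩, ⟨u', hu'⟩⟩ he
    have h1 : f m * u = f m' * u' := congrArg Subtype.val (congrArg Prod.fst he)
    have h2 : u⁻¹ * z m = u'⁻¹ * z m' := congrArg Subtype.val (congrArg Prod.snd he)
    have h3 : m = m' := by
      rw [hfz m hm, hfz m' hm']
      calc f m * z m = (f m * u) * (u⁻¹ * z m) := by group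
        _ = (f m' * u') * (u'⁻¹ * z m') := by rw [h1, h2]
        _ = f m' * z m' := by group
    subst h3
    have h4 : u = u' := mul_left_cancel h1
    subst h4
    rfl
  · rintro ⟨⟨a, ha⟩, ⟨b, hb⟩⟩
    have hab : a * b ∈ K := K.mul_mem (hF ha) (hZ hb)
    have e := hfz _ hab
    have e2 : (f (a * b))⁻¹ * a = z (a * b) * b⁻¹ := by
      rw [inv_mul_eq_iff_eq_mul, ← mul_assoc, ← e]; group
    refine ⟨⟨⟨a * b, hab⟩, ⟨(f (a * b))⁻¹ * a, F.mul_mem (F.inv_mem (hf _ hab)) ha, ?_⟩⟩, ?_⟩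
    · rw [e2]; exact Z.mul_mem (hz _ hab) (Z.inv_mem hb)
    · refine Prod.ext (Subtype.ext ?_) (Subtype.ext ?_)
      · change f (a * b) * ((f (a * b))⁻¹ * a) = a
        group
      · change ((f (a * b))⁻¹ * a)⁻¹ * z (a * b) = b
        rw [e2]; group

variable [Finite G]

lemma Good.conj {p : ℕ} {P : Sylow p G} {x : G} (h : Good P x) (b : G) :
    Good (b • P) (b * x * b⁻¹) := by
  refine ⟨?_, AttData.ne_one h.2.1, ?_⟩
  · exact Subgroup.smul_mem_pointwise_smul x (MulAut.conj b) (P : Subgroup G) h.1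
  · intro g hg
    rw [← sylow_normalizer_smul, mem_conj_iff]
    apply h.2.2
    rw [mem_cent] at hg ⊢
    calc b⁻¹ * g * b * x = b⁻¹ * (g * (b * x * b⁻¹)) * b := by group
      _ = b⁻¹ * (b * x * b⁻¹ * g) * b := by rw [hg]
      _ = x * (b⁻¹ * g * b) := by group

variable [IsSimpleGroup G]

/-- `K` is the normaliser of a Sylow subgroup containing a good element of prime order of `Z` -/
def InI (Z K : Subgroup G) : Prop :=
  ∃ s : ℕ, s.Prime ∧ ∃ u ∈ Z, orderOf u = s ∧ ∃ S : Sylow s G, Good S u ∧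
    normalizer (S : Set G) = K

/-- (5.4) -/
theorem five_four (hG : _root_.commutator G = ⊤) (hodd : Odd (Nat.card G))
    (hNA : ∀ H : Subgroup G, H < ⊤ → Group.IsNilpotent (_root_.commutator H))
    (h51 : S51 G) (h52 : S52 G)
    {p q : ℕ} [hpf : Fact p.Prime] [hqf : Fact q.Prime] (P : Sylow p G) (Q : Sylow q G) {x y : G}
    (hx : Good P x) (hxp : orderOf x = p) (hy : Good Q y) (hyq : orderOf y = q)
    (hxy : x * y = y * x) (hNC : NC (normalizer (P : Set G)) (normalizer (Q : Set G))) :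
    False := by
  classical
  obtain ⟨hZ, -⟩ := h52 P Q x y hx hxp hy hyq hxy hNC
  have h53 : ∀ {s : ℕ}, s.Prime → ∀ {u : G}, orderOf u = s →
      u ∈ normalizer (P : Set G) ⊓ normalizer (Q : Set G) → ∃ S : Sylow s G, Good S u := by
    intro s hs u hu huZ
    have : Fact s.Prime := ⟨hs⟩
    exact five_three hG hodd hNA h51 h52 P Q hx hxp hy hyq hxy hNC hu huZ
  set Z := normalizer (P : Set G) ⊓ normalizer (Q : Set G) with hZdef
  have hxZ : x ∈ Z := ⟨le_normalizer hx.1, hy.2.2 (mem_cent.mpr hxy)⟩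
  have hyZ : y ∈ Z := ⟨hx.2.2 (mem_cent.mpr hxy.symm), le_normalizer hy.1⟩
  -- the set of classes
  set I : Finset (Subgroup G) := (Set.toFinite {K : Subgroup G | InI Z K}).toFinset with hI
  have memI : ∀ K, K ∈ I ↔ InI Z K := by
    intro K; rw [hI, Set.Finite.mem_toFinset]; rfl
  have ha : ∀ K ∈ I, Z ≤ K := by
    intro K hK
    obtain ⟨s, hs, u, huZ, hus, S, hS, rfl⟩ := (memI K).mp hK
    intro z hz
    exact hS.2.2 (mem_cent.mpr (hZ z hz u huZ))
  have hbot : ∀ {s : ℕ} (S : Sylow s G) {u : G}, Good S u → (S : Subgroup G) ≠ ⊥ := by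
    intro s S u hu h
    apply hu.2.1
    have := hu.1
    change u ∈ (S : Subgroup G) at this
    rw [h, mem_bot] at this
    exact this
  have hco : ∀ K ∈ I, IsCoatom K := by
    intro K hK
    obtain ⟨s, hs, u, huZ, hus, S, hS, rfl⟩ := (memI K).mp hK
    have : Fact s.Prime := ⟨hs⟩
    exact isCoatom_normalizer (sylC hG hNA) hG hNA S (hbot S hS)
  have hlt : ∀ K ∈ I, K < ⊤ := fun K hK => lt_top_iff_ne_top.mpr (hco K hK).1
  have hpow1 : ∀ {s : ℕ} {u : G}, orderOf u = s → u ^ s ^ 1 = 1 := by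
    intro s u hu
    rw [pow_one, ← hu]; exact pow_orderOf_eq_one u
  have hnc : ∀ K ∈ I, ∀ K' ∈ I, K ≠ K' → NC K K' := by
    intro K hK K' hK' hne g hg
    obtain ⟨s, hs, u, huZ, hus, S, hS, rfl⟩ := (memI K).mp hK
    have : Fact s.Prime := ⟨hs⟩
    apply hne
    have h1 : u ∈ normalizer ((g • S : Sylow s G) : Set G) := by
      rw [← sylow_normalizer_smul, hg]; exact ha K' hK' huZ
    have h2 := mem_of_mem_normalizer (g • S) h1 (hpow1 hus)
    have h3 := hS.unique (sylC hG hNA) h2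
    rw [← hg, sylow_normalizer_smul, h3]
  have hPI : normalizer (P : Set G) ∈ I :=
    (memI _).mpr ⟨p, hpf.out, x, hxZ, hxp, P, hx, rfl⟩
  have hQI : normalizer (Q : Set G) ∈ I :=
    (memI _).mpr ⟨q, hqf.out, y, hyZ, hyq, Q, hy, rfl⟩
  have hPQ : normalizer (P : Set G) ≠ normalizer (Q : Set G) := by
    intro h
    apply hNC 1
    rw [map_one, one_smul]; exact h
  have hcard2 : 2 ≤ I.card := Finset.one_lt_card.mpr ⟨_, hPI, _, hQI, hPQ⟩
  have hInon : I.Nonempty := ⟨_, hPI⟩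
  -- intersections
  have hinf : ∀ K ∈ I, ∀ K' ∈ I, K ≠ K' → K ⊓ K' = Z ∧
      ∀ m ∈ K, ∃ f ∈ FM K, ∃ z ∈ Z, m = f * z := by
    intro K hK K' hK' hne
    have hN := hnc K hK K' hK' hne
    have hZK := ha K hK
    have hZK' := ha K' hK'
    obtain ⟨s, hs, u, huZ, hus, S, hS, rfl⟩ := (memI K).mp hK
    obtain ⟨s', hs', u', huZ', hus', S', hS', rfl⟩ := (memI K').mp hK'
    have : Fact s.Prime := ⟨hs⟩
    have : Fact s'.Prime := ⟨hs'⟩
    obtain ⟨h1, h2⟩ := h52 S S' u u' hS hus hS' hus' (hZ u huZ u' huZ') hN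
    have h3 : normalizer (S : Set G) ⊓ normalizer (S' : Set G) = Z := by
      apply le_antisymm
      · intro z hz
        refine ⟨hx.2.2 (mem_cent.mpr (h1 z hz x ⟨hZK hxZ, hZK' hxZ⟩)),
          hy.2.2 (mem_cent.mpr (h1 z hz y ⟨hZK hyZ, hZK' hyZ⟩))⟩
      · exact le_inf hZK hZK'
    refine ⟨h3, ?_⟩
    rw [h3] at h2
    exact h2
  have hother : ∀ K ∈ I, ∃ K' ∈ I, K ≠ K' := by
    intro K hK
    by_cases h : K = normalizer (P : Set G)
    · exact ⟨_, hQI, by rw [h]; exact hPQ⟩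
    · exact ⟨_, hPI, h⟩
  have hprod : ∀ K ∈ I, ∀ m ∈ K, ∃ f ∈ FM K, ∃ z ∈ Z, m = f * z := by
    intro K hK
    obtain ⟨K', hK', hne⟩ := hother K hK
    exact (hinf K hK K' hK' hne).2
  -- primary elements of `Z`
  have hprim : ∀ {s k : ℕ} {w : G}, s.Prime → w ∈ Z → w ≠ 1 → w ^ s ^ k = 1 →
      ∃ K ∈ I, w ∈ FM K ∧ ∃ u ∈ zpowers w, orderOf u = s ∧ ∃ S : Sylow s G, Good S u ∧
        normalizer (S : Set G) = K := by
    intro s k w hs hw hw1 hk
    have hsf : Fact s.Prime := ⟨hs⟩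
    have hsw : orderOf (xp w) = s := by
      rw [orderOf_xp]
      have h1 : (orderOf w).minFac ∣ s ^ k :=
        (Nat.minFac_dvd _).trans (orderOf_dvd_of_pow_eq_one hk)
      exact (Nat.prime_dvd_prime_iff_eq (minFac_prime hw1) hs).mp
        ((minFac_prime hw1).dvd_of_dvd_pow h1)
    have huZ : xp w ∈ Z := xp_mem hw
    obtain ⟨S, hS⟩ := h53 hs hsw huZ
    refine ⟨normalizer (S : Set G), (memI _).mpr ⟨s, hs, xp w, huZ, hsw, S, hS, rfl⟩, ?_,
      xp w, xp_mem (mem_zpowers w), hsw, S, hS, rfl⟩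
    have hpz : IsPGroup s (zpowers w) := by
      rintro ⟨v, hv⟩
      obtain ⟨i, rfl⟩ := mem_zpowers_iff.mp hv
      refine ⟨k, ?_⟩
      apply Subtype.ext
      change (w ^ i) ^ s ^ k = 1
      rw [← zpow_natCast, ← zpow_mul, mul_comm, zpow_mul, zpow_natCast, hk, one_zpow]
    exact le_FM hs S (hS.le (sylC hG hNA) hpz (xp_mem (mem_zpowers w)) (mem_zpowers w))
  -- the index
  have hhalf : ∀ K ∈ I, 2 * Nat.card (FM K ⊓ Z : Subgroup G) ≤ Nat.card (FM K) := by
    intro K hK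
    apply card_dvd_le (card_dvd_of_le inf_le_left) _ Nat.card_pos
    intro he
    have h1 : FM K ⊓ Z = FM K := Subgroup.eq_of_le_of_card_ge inf_le_left he.ge
    have h2 : FM K ≤ Z := by rw [← h1]; exact inf_le_right
    obtain ⟨K', hK', hne⟩ := hother K hK
    have h3 : K ≤ K' := by
      intro m hm
      obtain ⟨f, hf, z, hz, rfl⟩ := hprod K hK m hm
      exact ha K' hK' (Z.mul_mem (h2 hf) hz)
    rcases (hco K hK).le_iff.mp h3 with h4 | h4
    · exact (hlt K' hK').ne h4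
    · exact hne h4.symm
  have hcardK : ∀ K ∈ I, Nat.card K * Nat.card (FM K ⊓ Z : Subgroup G) =
      Nat.card (FM K) * Nat.card Z := fun K hK =>
    card_prod_eq (FM_le K) (ha K hK) (hprod K hK)
  -- intersections of the `F_K ⊓ Z`
  have hKK : ∀ K ∈ I, ∀ K' ∈ I, K ≠ K' → (FM K ⊓ Z) ⊓ (FM K' ⊓ Z) = ⊥ := by
    intro K hK K' hK' hne
    have h1 := FM_coprime hG hNA (hlt K hK) (hlt K' hK') (hnc K hK K' hK' hne)
    have h2 := (disjoint_of_coprime_natCard h1).eq_bot
    rw [eq_bot_iff, ← h2]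
    exact inf_le_inf inf_le_left inf_le_left
  -- the set `W`
  set W : Set G := {g : G | g ∈ Z ∧ ∀ K ∈ I, g ∉ FM K} with hW
  have hWtwo : ∀ w ∈ W, ∃ K ∈ I, ∃ K' ∈ I, K ≠ K' ∧
      (∃ s : ℕ, s.Prime ∧ ∃ u ∈ zpowers w, orderOf u = s ∧ ∃ S : Sylow s G, Good S u ∧
        normalizer (S : Set G) = K) ∧
      (∃ s : ℕ, s.Prime ∧ ∃ u ∈ zpowers w, orderOf u = s ∧ ∃ S : Sylow s G, Good S u ∧
        normalizer (S : Set G) = K') := by
    rintro w ⟨hwZ, hwK⟩
    have hw1 : w ≠ 1 := by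
      rintro rfl
      exact hwK _ hPI (one_mem _)
    have hprime := minFac_prime hw1
    have hxw : xp w ∈ Z := xp_mem hwZ
    obtain ⟨S, hS⟩ := h53 hprime orderOf_xp hxw
    have hK : normalizer (S : Set G) ∈ I := (memI _).mpr ⟨_, hprime, xp w, hxw, orderOf_xp, S, hS, rfl⟩
    have hnot : ∃ t : ℕ, t.Prime ∧ ∃ v ∈ zpowers w, (∃ k, v ^ t ^ k = 1) ∧
        v ∉ FM (normalizer (S : Set G)) := by
      by_contra hcon
      push Not at hcon
      apply hwK _ hK
      apply Pool.Agent.H3.FT.mem_of_parts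
      intro t ht v hv hk
      exact hcon t ht v hv hk
    obtain ⟨t, ht, v, hv, ⟨k, hk⟩, hvF⟩ := hnot
    have hv1 : v ≠ 1 := by
      rintro rfl
      exact hvF (one_mem _)
    have hvZ : v ∈ Z := (zpowers_le.mpr hwZ) hv
    obtain ⟨K', hK', hvK', u, hu, hut, S', hS', hSK'⟩ := hprim ht hvZ hv1 hk
    refine ⟨_, hK, K', hK', ?_, ⟨_, hprime, xp w, xp_mem (mem_zpowers w), orderOf_xp, S, hS, rfl⟩,
      ⟨t, ht, u, (zpowers_le.mpr hv) hu, hut, S', hS', hSK'⟩⟩
    rintro rfl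
    exact hvF hvK'
  -- `W` is a TI set
  have hTI : ∀ w ∈ W, ∀ g : G, g * w * g⁻¹ ∈ W → g ∈ Z := by
    intro w hw g hg
    obtain ⟨K, hK, K', hK', hne, hu, hu'⟩ := hWtwo w hw
    have key : ∀ {K : Subgroup G}, (∃ s : ℕ, s.Prime ∧ ∃ u ∈ zpowers w, orderOf u = s ∧
        ∃ S : Sylow s G, Good S u ∧ normalizer (S : Set G) = K) → g ∈ K := by
      rintro K ⟨s, hs, u, hu, hus, S, hS, rfl⟩
      have : Fact s.Prime := ⟨hs⟩
      have huZ : u ∈ Z := (zpowers_le.mpr hw.1) hu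
      have hguZ : g * u * g⁻¹ ∈ Z := by
        obtain ⟨i, rfl⟩ := mem_zpowers_iff.mp hu
        rw [← conj_zpow]
        exact zpow_mem hg.1 i
      have h1 : g * u * g⁻¹ ∈ normalizer (S : Set G) :=
        hS.2.2 (mem_cent.mpr (hZ _ hguZ u huZ))
      have h2 : g * u * g⁻¹ ∈ S := by
        apply mem_of_mem_normalizer S (k := 1) h1
        rw [conj_pow, hpow1 hus, mul_one, mul_inv_cancel]
      exact hS.mem_normalizer (sylC hG hNA) h2
    have h1 : g ∈ K ⊓ K' := ⟨key hu, key hu'⟩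
    rw [(hinf K hK K' hK' hne).1] at h1
    exact h1
  have hC := H1FT.ti_card Z W (fun w hw z hz => hZ z hz w hw.1) hTI
  -- `W` and the attached elements
  have hWA : ∀ K ∈ I, ∀ w ∈ W, ∀ k : G, k * w * k⁻¹ ∉ Att (FM K) RX := by
    intro K hK w hw k hmem
    obtain ⟨a, haF, ha1, r, hr, c, hc⟩ := hmem
    set b : G := c⁻¹ * k with hb
    have hbw : b * w * b⁻¹ = a * r := by
      have e : b * w * b⁻¹ = c⁻¹ * (k * w * k⁻¹) * c := by rw [hb]; group
      rw [e, hc]; group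
    have D := attData hG hodd hNA (hlt K hK)
    -- `a` is a power of `a r`
    have hj : ∃ j : ℕ, (a * r) ^ j = a := by
      have hc1 : (orderOf a).Coprime (orderOf r) := by
        have e1 : orderOf a ∣ Nat.card (FM K) := by
          have := orderOf_dvd_natCard (⟨a, haF⟩ : FM K)
          rwa [← orderOf_submonoid] at this
        have e2 : orderOf r ∣ Nat.card (RX a) := by
          have := orderOf_dvd_natCard (⟨r, hr⟩ : RX a)
          rwa [← orderOf_submonoid] at this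
        exact Nat.Coprime.coprime_dvd_left e1 (Nat.Coprime.coprime_dvd_right e2
          (D.cop a haF ha1).symm)
      obtain ⟨j, hj1, hj2⟩ := Nat.chineseRemainder hc1 1 0
      refine ⟨j, ?_⟩
      have hau : Commute a r := (D.cen a haF ha1 r hr).symm
      rw [hau.mul_pow]
      have h1 : a ^ j = a := by
        have h3 : a ^ j = a ^ 1 := pow_eq_pow_iff_modEq.2 hj1
        rw [h3, pow_one]
      have h2 : r ^ j = 1 := by
        have h3 : r ^ j = r ^ 0 := pow_eq_pow_iff_modEq.2 hj2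
        rw [h3, pow_zero]
      rw [h1, h2, mul_one]
    obtain ⟨j, hj⟩ := hj
    have haw : a = b * w ^ j * b⁻¹ := by rw [← hj, ← hbw, conj_pow]
    -- `xp a` is good
    have hxa : xp a = b * xp (w ^ j) * b⁻¹ := by rw [haw, xp_conj]
    have hwj1 : w ^ j ≠ 1 := by
      intro h
      apply ha1
      rw [haw, h]; group
    have hwjZ : xp (w ^ j) ∈ Z := xp_mem (pow_mem hw.1 _)
    have hprime := minFac_prime hwj1
    have hpf' : Fact (orderOf (w ^ j)).minFac.Prime := ⟨hprime⟩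
    obtain ⟨S, hS⟩ := h53 hprime orderOf_xp hwjZ
    have hSb := hS.conj b
    rw [← hxa] at hSb
    have hxF : xp a ∈ FM K := xp_mem haF
    have hxo : orderOf (xp a) = (orderOf (w ^ j)).minFac := by
      rw [hxa, IsKp.orderOf_conj, orderOf_xp]
    obtain ⟨T, hT, hTK⟩ := FM_elt hG hNA (hlt K hK) hprime hxF (xp_ne_one ha1) (hpow1 hxo)
    have hTb : T = b • S := hSb.unique (sylC hG hNA) hT
    have hcent : centralizer ({xp a} : Set G) ≤ K := by
      rw [← hTK, hTb]; exact hSb.2.2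
    have hRbot : RX a = ⊥ := RX_bot hG hodd hNA (hlt K hK) haF ha1 hcent
    rw [hRbot, mem_bot] at hr
    rw [hr, mul_one] at hbw
    -- two classes
    obtain ⟨K1, hK1, K2, hK2, hne, hu1, hu2⟩ := hWtwo w hw
    have key : ∀ {K1 : Subgroup G}, (∃ s : ℕ, s.Prime ∧ ∃ u ∈ zpowers w, orderOf u = s ∧
        ∃ S : Sylow s G, Good S u ∧ normalizer (S : Set G) = K1) → MulAut.conj b • K1 = K := by
      rintro K1 ⟨s, hs, u, hu, hus, S1, hS1, rfl⟩
      have : Fact s.Prime := ⟨hs⟩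
      have hS1b := hS1.conj b
      have hbu : b * u * b⁻¹ ∈ FM K := by
        obtain ⟨i, rfl⟩ := mem_zpowers_iff.mp hu
        rw [← conj_zpow, hbw]
        exact zpow_mem haF i
      obtain ⟨T1, hT1, hT1K⟩ := FM_elt hG hNA (hlt K hK) hs (k := 1) hbu hS1b.2.1
        (by rw [conj_pow, hpow1 hus, mul_one, mul_inv_cancel])
      have h1 : T1 = b • S1 := hS1b.unique (sylC hG hNA) hT1
      rw [sylow_normalizer_smul, ← h1, hT1K]
    have h1 := key hu1
    have h2 := key hu2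
    apply hne
    rw [← h2] at h1
    exact smul_left_cancel _ h1
  -- counting
  have hWcard := H1FT.union_card Z (I.image fun K => FM K ⊓ Z) (hInon.image _)
    (by
      intro K hK
      obtain ⟨K0, -, rfl⟩ := Finset.mem_image.mp hK
      exact inf_le_right)
    (by
      intro K hK K' hK' hne
      obtain ⟨K0, hK0, rfl⟩ := Finset.mem_image.mp hK
      obtain ⟨K1, hK1, rfl⟩ := Finset.mem_image.mp hK'
      apply hKK K0 hK0 K1 hK1
      rintro rfl
      exact hne rfl)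
  have hinj : Set.InjOn (fun K => FM K ⊓ Z) (I : Set (Subgroup G)) := by
    intro K hK K' hK' he
    by_contra hne
    have hK := Finset.mem_coe.mp hK
    have h1 := hKK K hK K' (Finset.mem_coe.mp hK') hne
    change FM K ⊓ Z = FM K' ⊓ Z at he
    rw [← he, inf_idem] at h1
    obtain ⟨s, hs, u, huZ, hus, S, hS, hSK⟩ := (memI K).mp hK
    have h2 : u ∈ FM K ⊓ Z := ⟨le_FM' hs S hSK hS.1, huZ⟩
    rw [h1, mem_bot] at h2
    exact hS.2.1 h2
  rw [Finset.sum_image hinj] at hWcard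
  have hWeq : {g : G | g ∈ Z ∧ ∀ K ∈ I.image fun K => FM K ⊓ Z, g ∉ K} = W := by
    ext g
    rw [hW]
    change (g ∈ Z ∧ ∀ K ∈ I.image fun K => FM K ⊓ Z, g ∉ K) ↔ (g ∈ Z ∧ ∀ K ∈ I, g ∉ FM K)
    constructor
    · rintro ⟨h1, h2⟩
      exact ⟨h1, fun K hK hg => h2 _ (Finset.mem_image_of_mem _ hK) ⟨hg, h1⟩⟩
    · rintro ⟨h1, h2⟩
      refine ⟨h1, fun K hK hg => ?_⟩
      obtain ⟨K0, hK0, rfl⟩ := Finset.mem_image.mp hK
      exact h2 K0 hK0 hg.1
  rw [hWeq] at hWcard
  have hfin := Fintype.ofFinite G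
  -- the attached sets and the conjugates of `W` are disjoint subsets of `G#`
  obtain ⟨C, hCdef⟩ : ∃ C : Set G, C = {g : G | ∃ w ∈ W, ∃ k : G, g = k * w * k⁻¹} := ⟨_, rfl⟩
  rw [← hCdef] at hC
  have hcardset : ∀ T : Set G, Nat.card T = (Finset.univ.filter fun g => g ∈ T).card := by
    intro T
    rw [Nat.card_eq_fintype_card, Fintype.card_subtype]
  have hlt' : ∑ K ∈ I, Nat.card (Att (FM K) RX) + Nat.card C < Nat.card G := by
    have e1 : ∑ K ∈ I, Nat.card (Att (FM K) RX) =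
        (I.biUnion fun K => Finset.univ.filter fun g => g ∈ Att (FM K) RX).card := by
      rw [Finset.card_biUnion]
      · exact Finset.sum_congr rfl fun K _ => hcardset _
      · intro K hK K' hK' hne
        change Disjoint (Finset.univ.filter fun g => g ∈ Att (FM K) RX)
          (Finset.univ.filter fun g => g ∈ Att (FM K') RX)
        rw [Finset.disjoint_left]
        intro g hg hg'
        exact att_disj hG hodd hNA (hlt K hK) (hlt K' hK') (hnc K hK K' hK' hne)
          (Finset.mem_filter.mp hg).2 (Finset.mem_filter.mp hg').2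
    rw [e1, hcardset C, ← Finset.card_union_of_disjoint]
    · have e2 : Nat.card G = (Finset.univ : Finset G).card := by
        rw [Nat.card_eq_fintype_card, Finset.card_univ]
      rw [e2]
      apply Finset.card_lt_card
      refine (Finset.ssubset_univ_iff).mpr ?_
      intro huniv
      have h1 : (1 : G) ∈ (I.biUnion fun K => Finset.univ.filter fun g => g ∈ Att (FM K) RX) ∪
          Finset.univ.filter fun g => g ∈ C := by rw [huniv]; exact Finset.mem_univ _
      rcases Finset.mem_union.mp h1 with h2 | h2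
      · obtain ⟨K, hK, h3⟩ := Finset.mem_biUnion.mp h2
        obtain ⟨a, haF, ha1, r, hr, c, hc⟩ := (Finset.mem_filter.mp h3).2
        have D := attData hG hodd hNA (hlt K hK)
        have h4 : a * r = 1 := by
          have e : a * r = c⁻¹ * (c * (a * r) * c⁻¹) * c := by group
          rw [e, ← hc]; group
        have h5 : r ∈ K := by
          have : r = a⁻¹ := (inv_eq_of_mul_eq_one_right h4).symm
          rw [this]; exact K.inv_mem (D.le haF)
        have h6 := D.disj a haF ha1 r hr h5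
        rw [h6, mul_one] at h4
        exact ha1 h4
      · have h3 := (Finset.mem_filter.mp h2).2
        rw [hCdef] at h3
        obtain ⟨w, hw, k, hk⟩ := h3
        have h3 : w = 1 := by
          have e : w = k⁻¹ * (k * w * k⁻¹) * k := by group
          rw [e, ← hk]; group
        rw [h3] at hw
        exact hw.2 _ hPI (one_mem _)
    · rw [Finset.disjoint_left]
      intro g hg hg'
      obtain ⟨K, hK, h3⟩ := Finset.mem_biUnion.mp hg
      have h4 := (Finset.mem_filter.mp hg').2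
      rw [hCdef] at h4
      obtain ⟨w, hw, k, rfl⟩ := h4
      exact hWA K hK w hw k (Finset.mem_filter.mp h3).2
  exact H1FT.clique_num I hcard2 (fun K => Nat.card (FM K)) (fun K => Nat.card (FM K ⊓ Z : Subgroup G))
    (fun K => Nat.card K) (fun K => Nat.card (Att (FM K) RX)) (Nat.card Z) (Nat.card G)
    (Nat.card W) (Nat.card C) Nat.card_pos (fun K _ => Nat.card_pos) hhalf hcardK
    (fun K hK => card_Att (attData hG hodd hNA (hlt K hK))) hC hWcard hlt'

end H51.FT
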