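import Mathlib

/-!
Fusion in finite groups in which the Sylow subgroups of the normaliser of a nontrivial
`p`-subgroup `D` are conjugate under the centraliser of `D`.
-/

namespace H51.FT

open Subgroup
open scoped Pointwise commutatorElement

variable {G : Type*} [Group G]

/-- `S` is a Sylow `p`-subgroup of the subgroup `H` (both are subgroups of `G`). -/
def IsSyl (p : ℕ) (H S : Subgroup G) : Prop :=
  S ≤ H ∧ IsPGroup p S ∧ ∀ T : Subgroup G, T ≤ H → IsPGroup p T → S ≤ T → T = S

/-- The Sylow `p`-subgroups of the normaliser of a nontrivial `p`-subgroup `D` are conjugate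
under the centraliser of `D`. -/
def SylC (p : ℕ) (G : Type*) [Group G] : Prop :=
  ∀ D : Subgroup G, D ≠ ⊥ → IsPGroup p D → ∀ S T : Subgroup G,
    IsSyl p (normalizer (D : Set G)) S → IsSyl p (normalizer (D : Set G)) T →
    ∃ c ∈ centralizer (D : Set G), MulAut.conj c • S = T

lemma exists_isSyl [Finite G] {p : ℕ} {H T : Subgroup G} (hT : T ≤ H) (hp : IsPGroup p T) :
    ∃ S, IsSyl p H S ∧ T ≤ S := by
  classical
  have hfin : Set.Finite {S : Subgroup G | S ≤ H ∧ IsPGroup p S ∧ T ≤ S} := Set.toFinite _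
  obtain ⟨S, hS, hmax⟩ := hfin.exists_maximal ⟨T, hT, hp, le_rfl⟩
  refine ⟨S, ⟨hS.1, hS.2.1, ?_⟩, hS.2.2⟩
  intro U hU hUp hSU
  exact le_antisymm (hmax ⟨hU, hUp, hS.2.2.trans hSU⟩ hSU) hSU

lemma IsSyl.conj {p : ℕ} {H S : Subgroup G} (h : IsSyl p H S) {g : G} (hg : g ∈ H) :
    IsSyl p H (MulAut.conj g • S) := by
  have key : ∀ {g : G}, g ∈ H → MulAut.conj g • H = H := by
    intro g hg
    exact Subgroup.conj_smul_eq_self_of_mem hg
  refine ⟨?_, ?_, ?_⟩
  · calc MulAut.conj g • S ≤ MulAut.conj g • H := Subgroup.pointwise_smul_le_pointwise_smul_iff.mpr h.1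
      _ = H := key hg
  · exact h.2.1.map _
  · intro T hT hTp hST
    have h1 : MulAut.conj g⁻¹ • T = S := by
      apply h.2.2
      · calc MulAut.conj g⁻¹ • T ≤ MulAut.conj g⁻¹ • H :=
              Subgroup.pointwise_smul_le_pointwise_smul_iff.mpr hT
          _ = H := key (inv_mem hg)
      · exact hTp.map _
      · rw [map_inv, Subgroup.subset_pointwise_smul_iff, inv_inv]; exact hST
    rw [← h1, map_inv, smul_inv_smul]

/-- a proper subgroup of a `p`-group is smaller than its normaliser -/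
lemma lt_inf_normalizer [Finite G] {p : ℕ} [Fact p.Prime] {P D : Subgroup G}
    (hP : IsPGroup p P) (h : D < P) : D < P ⊓ normalizer (D : Set G) := by
  have hnil : Group.IsNilpotent P := hP.isNilpotent
  have hnc := Group.normalizerCondition_of_isNilpotent (G := P)
  have h1 : D.subgroupOf P < ⊤ := by
    rw [lt_top_iff_ne_top, Ne, subgroupOf_eq_top]
    exact fun h' => absurd (lt_of_lt_of_le h h') (lt_irrefl _)
  have h2 := hnc _ h1
  obtain ⟨x, hx, hxD⟩ := SetLike.exists_of_lt h2
  refine lt_of_le_of_ne (le_inf h.le le_normalizer) ?_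
  intro heq
  apply hxD
  rw [mem_subgroupOf, heq]
  refine ⟨x.2, ?_⟩
  change (x : G) ∈ normalizer (D : Set G)
  rw [mem_normalizer_iff] at hx ⊢
  intro y
  constructor
  · intro hy
    have hyP : y ∈ P := h.le hy
    have := (hx ⟨y, hyP⟩).mp (by rw [mem_subgroupOf]; exact hy)
    rw [mem_subgroupOf] at this
    simpa using this
  · intro hy
    have hyP : y ∈ P := by
      have h3 : (x : G) * y * (x : G)⁻¹ ∈ P := h.le hy
      have h4 := P.mul_mem (P.mul_mem (P.inv_mem x.2) h3) x.2
      have h5 : (x : G)⁻¹ * ((x : G) * y * (x : G)⁻¹) * x = y := by group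
      rwa [h5] at h4
    have := (hx ⟨y, hyP⟩).mpr (by rw [mem_subgroupOf]; simpa using hy)
    rw [mem_subgroupOf] at this
    exact this

lemma mem_centralizer_anti {S T : Subgroup G} (h : S ≤ T) {c : G}
    (hc : c ∈ centralizer (T : Set G)) : c ∈ centralizer (S : Set G) :=
  centralizer_le (SetLike.coe_subset_coe.mpr h) hc

/-- (L0) any two Sylow `p`-subgroups are conjugate by an element centralising their
intersection. -/
theorem sylow_conj [Finite G] {p : ℕ} [Fact p.Prime] (h12 : SylC p G) (P Q : Sylow p G) :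
    ∃ c ∈ centralizer ((P ⊓ Q : Subgroup G) : Set G), c • P = Q := by
  have main : ∀ n : ℕ, ∀ P Q : Sylow p G,
      Nat.card G - Nat.card ((P : Subgroup G) ⊓ Q : Subgroup G) ≤ n →
      ∃ c ∈ centralizer ((P ⊓ Q : Subgroup G) : Set G), c • P = Q := by
    intro n
    induction n with
    | zero =>
      intro P Q h
      have h1 : Nat.card ((P : Subgroup G) ⊓ Q : Subgroup G) ≤ Nat.card G :=
        Subgroup.card_le_card_group _
      have h2 : (P : Subgroup G) ⊓ Q = ⊤ := by
        apply Subgroup.eq_top_of_card_eq; omega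
      have h3 : (P : Subgroup G) = ⊤ := top_le_iff.mp (h2 ▸ inf_le_left)
      have h4 : (Q : Subgroup G) = ⊤ := top_le_iff.mp (h2 ▸ inf_le_right)
      refine ⟨1, one_mem _, ?_⟩
      rw [one_smul]
      exact Sylow.ext (h3.trans h4.symm)
    | succ n ih =>
      intro P Q h
      by_cases hPQ : P = Q
      · subst hPQ
        exact ⟨1, one_mem _, one_smul _ _⟩
      set D : Subgroup G := (P : Subgroup G) ⊓ Q with hD
      by_cases hD0 : D = ⊥
      · obtain ⟨g, hg⟩ := MulAction.exists_smul_eq G P Q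
        refine ⟨g, ?_, hg⟩
        rw [hD0, mem_centralizer_iff]
        intro x hx
        have : x = 1 := by simpa using hx
        rw [this]; simp
      have hDP : D < P := by
        refine lt_of_le_of_ne inf_le_left ?_
        intro he
        have : (P : Subgroup G) ≤ Q := he ▸ inf_le_right
        exact hPQ (Sylow.ext (P.3 Q.2 this).symm)
      have hDQ : D < Q := by
        refine lt_of_le_of_ne inf_le_right ?_
        intro he
        have : (Q : Subgroup G) ≤ P := he ▸ inf_le_left
        exact hPQ (Sylow.ext (Q.3 P.2 this))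
      have hDp : IsPGroup p D := P.2.to_le inf_le_left
      set N := normalizer (D : Set G) with hN
      have hPN := lt_inf_normalizer P.2 hDP
      have hQN := lt_inf_normalizer Q.2 hDQ
      obtain ⟨R, hR, hPR⟩ := exists_isSyl (H := N) (T := (P : Subgroup G) ⊓ N) inf_le_right
        (P.2.to_le inf_le_left)
      obtain ⟨S, hS, hQS⟩ := exists_isSyl (H := N) (T := (Q : Subgroup G) ⊓ N) inf_le_right
        (Q.2.to_le inf_le_left)
      obtain ⟨R', hR'⟩ := hR.2.1.exists_le_sylow
      obtain ⟨k, hk, hkS⟩ := h12 D hD0 hDp R S hR hS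
      have hcard : ∀ {A : Subgroup G}, D < A → Nat.card D < Nat.card A := by
        intro A hA
        exact Set.ncard_lt_ncard (SetLike.coe_ssubset_coe.mpr hA) (Set.toFinite _)
      have hDc : Nat.card D ≤ Nat.card G := Subgroup.card_le_card_group _
      -- first step
      have hD1 : D < (P : Subgroup G) ⊓ R' := lt_of_lt_of_le hPN (le_inf inf_le_left (hPR.trans hR'))
      obtain ⟨a, ha, haR⟩ := ih P R' (by
        have := hcard hD1
        have h2 : Nat.card ((P : Subgroup G) ⊓ R' : Subgroup G) ≤ Nat.card G :=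
          Subgroup.card_le_card_group _
        omega)
      -- second step
      have hS' : S ≤ (k • R' : Sylow p G) := by
        rw [Sylow.coe_subgroup_smul, ← hkS]
        exact Subgroup.pointwise_smul_le_pointwise_smul_iff.mpr hR'
      have hD2 : D < ((k • R' : Sylow p G) : Subgroup G) ⊓ Q :=
        lt_of_lt_of_le hQN (le_inf (hQS.trans hS') inf_le_left)
      obtain ⟨b, hb, hbQ⟩ := ih (k • R') Q (by
        have := hcard hD2
        have h2 : Nat.card (((k • R' : Sylow p G) : Subgroup G) ⊓ Q : Subgroup G) ≤ Nat.card G :=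
          Subgroup.card_le_card_group _
        omega)
      refine ⟨b * (k * a), ?_, ?_⟩
      · exact mul_mem (mem_centralizer_anti hD2.le hb)
          (mul_mem hk (mem_centralizer_anti hD1.le ha))
      · rw [mul_smul, mul_smul, haR, hbQ]
  exact main _ P Q le_rfl

/-- (1.3) the normaliser of a Sylow subgroup controls fusion in it, in the strong form. -/
theorem fusion [Finite G] {p : ℕ} [Fact p.Prime] (h12 : SylC p G) (P : Sylow p G) {X : Set G}
    (hX : X ⊆ P) {g : G} (hg : ∀ x ∈ X, g * x * g⁻¹ ∈ P) :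
    ∃ n ∈ normalizer (P : Set G), ∃ c ∈ centralizer X, g = n * c := by
  obtain ⟨c, hc, hcP⟩ := sylow_conj h12 P (g⁻¹ • P)
  refine ⟨g * c, ?_, c⁻¹, inv_mem ?_, by group⟩
  · rw [← Sylow.smul_eq_iff_mem_normalizer, mul_smul, hcP, smul_inv_smul]
  · apply centralizer_le _ hc
    intro x hx
    refine ⟨hX hx, ?_⟩
    change x ∈ ((g⁻¹ • P : Sylow p G) : Subgroup G)
    rw [Sylow.coe_subgroup_smul, map_inv, Subgroup.mem_inv_pointwise_smul_iff]
    exact hg x hx

/-- conjugation form of (1.3) for one element -/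
theorem fusion_elt [Finite G] {p : ℕ} [Fact p.Prime] (h12 : SylC p G) (P : Sylow p G) {x g : G}
    (hx : x ∈ P) (hg : g * x * g⁻¹ ∈ P) :
    ∃ n ∈ normalizer (P : Set G), ∃ c : G, c * x = x * c ∧ g = n * c := by
  obtain ⟨n, hn, c, hc, e⟩ := fusion h12 P (X := {x}) (by simpa using hx) (g := g)
    (by simpa using hg)
  refine ⟨n, hn, c, ?_, e⟩
  exact ((mem_centralizer_iff.mp hc) x rfl).symm

/-- (1.4) -/
theorem le_comm_normalizer [Finite G] {p : ℕ} [Fact p.Prime] (h12 : SylC p G) (P : Sylow p G)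
    (hG : _root_.commutator G = ⊤) : (P : Subgroup G) ≤ ⁅(P : Subgroup G), normalizer (P : Set G)⁆ := by
  have h1 := commutator_inf_eq_focalSubgroup P
  rw [hG, top_inf_eq] at h1
  have h1' : (P : Subgroup G).focalSubgroup ≤ ⁅(P : Subgroup G), normalizer (P : Set G)⁆ := by
    rw [focalSubgroup_def, closure_le]
    rintro g ⟨hg, x, hx, u, rfl⟩
    have h2 : u * x⁻¹ * u⁻¹ ∈ P := by
      have h3 : x⁻¹ * ⁅x, u⁆ ∈ (P : Subgroup G) := mul_mem (inv_mem hx) hg
      have h4 : x⁻¹ * ⁅x, u⁆ = u * x⁻¹ * u⁻¹ := by simp only [commutatorElement_def]; group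
      rw [h4] at h3; exact h3
    obtain ⟨n, hn, c, hc, rfl⟩ := fusion_elt h12 P (inv_mem hx) h2
    have h5 : ⁅x, n * c⁆ = ⁅x, n⁆ := by
      simp only [commutatorElement_def]
      have : n * c * x⁻¹ * (n * c)⁻¹ = n * x⁻¹ * n⁻¹ := by
        calc n * c * x⁻¹ * (n * c)⁻¹ = n * (c * x⁻¹) * c⁻¹ * n⁻¹ := by group
          _ = n * (x⁻¹ * c) * c⁻¹ * n⁻¹ := by rw [hc]
          _ = n * x⁻¹ * n⁻¹ := by group
      calc x * (n * c) * x⁻¹ * (n * c)⁻¹ = x * (n * c * x⁻¹ * (n * c)⁻¹) := by group
        _ = x * (n * x⁻¹ * n⁻¹) := by rw [this]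
        _ = x * n * x⁻¹ * n⁻¹ := by group
    rw [h5]
    exact commutator_mem_commutator hx hn
  exact h1.le.trans h1'

end H51.FT
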