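import Pool.Agent.H51.FT.Fus

/-!
Sections 1.5 and 1.6: the normaliser of a Sylow subgroup is a maximal subgroup; good elements.
-/

namespace H51.FT

open Subgroup
open scoped Pointwise commutatorElement

variable {G : Type*} [Group G]

lemma nil_comm {M : Subgroup G} (hM : Group.IsNilpotent (_root_.commutator M)) :
    Group.IsNilpotent (⁅M, M⁆ : Subgroup G) := by
  have e : (_root_.commutator M).map M.subtype = ⁅M, M⁆ := map_subtype_commutator M
  have e2 : _root_.commutator M ≃* (_root_.commutator M).map M.subtype :=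
    (_root_.commutator M).equivMapOfInjective M.subtype M.subtype_injective
  rw [← e]
  exact Group.nilpotent_of_mulEquiv e2

/-- a Sylow subgroup contained in the nilpotent derived subgroup of `M` is normal in `M` -/
lemma le_normalizer_of_le_comm [Finite G] {p : ℕ} [Fact p.Prime] {M : Subgroup G}
    (hM : Group.IsNilpotent (_root_.commutator M)) (P : Sylow p G)
    (hP : (P : Subgroup G) ≤ ⁅M, M⁆) : M ≤ normalizer (P : Set G) := by
  have hnil := nil_comm hM
  intro m hm
  rw [← Sylow.smul_eq_iff_mem_normalizer]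
  have hmP : ((m • P : Sylow p G) : Subgroup G) ≤ ⁅M, M⁆ := by
    rw [Sylow.coe_subgroup_smul]
    have h1 : MulAut.conj m • ⁅M, M⁆ = ⁅M, M⁆ := by
      change (⁅M, M⁆).map (MulAut.conj m).toMonoidHom = _
      rw [map_commutator]
      have h2 : M.map (MulAut.conj m).toMonoidHom = M := Subgroup.conj_smul_eq_self_of_mem hm
      rw [h2]
    rw [← h1]
    exact Subgroup.pointwise_smul_le_pointwise_smul_iff.mpr hP
  have h1 : ((m • P).subtype hmP) = P.subtype hP := by
    have := Sylow.unique_of_normal (P.subtype hP) inferInstance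
    exact Subsingleton.elim _ _
  exact Sylow.subtype_injective h1

section
variable [Finite G] [IsSimpleGroup G]

lemma normalizer_ne_top {p : ℕ} [Fact p.Prime] (hG : _root_.commutator G = ⊤) {Q : Subgroup G}
    (hp : IsPGroup p Q) (hQ : Q ≠ ⊥) : normalizer (Q : Set G) ≠ ⊤ := by
  intro h
  have hn : Q.Normal := normalizer_eq_top_iff.mp h
  rcases IsSimpleGroup.eq_bot_or_eq_top_of_normal Q hn with h1 | h1
  · exact hQ h1
  · subst h1
    have hG' : IsPGroup p G := hp.of_equiv Subgroup.topEquiv
    have hnil : Group.IsNilpotent G := hG'.isNilpotent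
    have hsol : Group.IsSolvable G := inferInstance
    have := Group.IsSolvable.commutator_lt_top_of_nontrivial G
    rw [hG] at this
    exact lt_irrefl _ this

/-- (1.5) -/
theorem isCoatom_normalizer {p : ℕ} [Fact p.Prime] (h12 : SylC p G)
    (hG : _root_.commutator G = ⊤)
    (hNA : ∀ H : Subgroup G, H < ⊤ → Group.IsNilpotent (_root_.commutator H))
    (P : Sylow p G) (hP : (P : Subgroup G) ≠ ⊥) : IsCoatom (normalizer (P : Set G)) := by
  refine ⟨normalizer_ne_top hG P.2 hP, ?_⟩
  intro M hM
  by_contra hMt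
  have h1 : (P : Subgroup G) ≤ ⁅M, M⁆ :=
    (le_comm_normalizer h12 P hG).trans (commutator_mono (le_normalizer.trans hM.le) hM.le)
  exact absurd (le_normalizer_of_le_comm (hNA M (lt_top_iff_ne_top.mpr hMt)) P h1)
    (not_le_of_gt hM)

/-- (1.5), uniqueness of the maximal subgroup above `N_G(P)` -/
theorem eq_normalizer_of_le {p : ℕ} [Fact p.Prime] (h12 : SylC p G)
    (hG : _root_.commutator G = ⊤)
    (hNA : ∀ H : Subgroup G, H < ⊤ → Group.IsNilpotent (_root_.commutator H))
    (P : Sylow p G) (hP : (P : Subgroup G) ≠ ⊥) {M : Subgroup G} (hM : M < ⊤)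
    (h : normalizer (P : Set G) ≤ M) : M = normalizer (P : Set G) := by
  rcases (isCoatom_normalizer h12 hG hNA P hP).le_iff.mp h with h1 | h1
  · exact absurd h1 hM.ne
  · exact h1

/-- (1.5): the normaliser of a nontrivial `N_G(P)`-invariant subgroup of `P` -/
theorem normalizer_eq_of_inv {p : ℕ} [Fact p.Prime] (h12 : SylC p G)
    (hG : _root_.commutator G = ⊤)
    (hNA : ∀ H : Subgroup G, H < ⊤ → Group.IsNilpotent (_root_.commutator H))
    (P : Sylow p G) {X : Subgroup G} (hX : X ≠ ⊥) (hX2 : X ≠ ⊤)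
    (hPb : (P : Subgroup G) ≠ ⊥)
    (hinv : normalizer (P : Set G) ≤ normalizer (X : Set G)) :
    normalizer (X : Set G) = normalizer (P : Set G) := by
  refine eq_normalizer_of_le h12 hG hNA P hPb ?_ hinv
  rw [lt_top_iff_ne_top]
  intro h
  have hn : X.Normal := normalizer_eq_top_iff.mp h
  rcases IsSimpleGroup.eq_bot_or_eq_top_of_normal X hn with h1 | h1
  · exact hX h1
  · exact hX2 h1

end

section good
variable [Finite G]

/-- (1.6) `x` is good for `P`. -/
def Good {p : ℕ} (P : Sylow p G) (x : G) : Prop :=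
  x ∈ P ∧ x ≠ 1 ∧ centralizer {x} ≤ normalizer (P : Set G)

theorem Good.mem_normalizer {p : ℕ} [Fact p.Prime] (h12 : SylC p G) {P : Sylow p G} {x : G}
    (h : Good P x) {g : G} (hg : g * x * g⁻¹ ∈ P) : g ∈ normalizer (P : Set G) := by
  obtain ⟨n, hn, c, hc, rfl⟩ := fusion_elt h12 P h.1 hg
  refine mul_mem hn (h.2.2 ?_)
  rw [mem_centralizer_iff]
  intro y hy
  have : y = x := hy
  rw [this]
  exact hc.symm

/-- a good element lies in a unique Sylow subgroup -/
theorem Good.unique {p : ℕ} [Fact p.Prime] (h12 : SylC p G) {P : Sylow p G} {x : G}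
    (h : Good P x) {Q : Sylow p G} (hQ : x ∈ Q) : Q = P := by
  obtain ⟨g, hg⟩ := MulAction.exists_smul_eq G Q P
  have h1 : g * x * g⁻¹ ∈ P := by
    rw [← hg]
    exact Subgroup.smul_mem_pointwise_smul x (MulAut.conj g) (Q : Subgroup G) hQ
  have h2 := h.mem_normalizer h12 h1
  have h3 : g⁻¹ • P = P := Sylow.smul_eq_iff_mem_normalizer.mpr (inv_mem h2)
  rw [← h3, ← hg, inv_smul_smul]

/-- a `p`-subgroup containing a good element lies in `P` -/
theorem Good.le {p : ℕ} [Fact p.Prime] (h12 : SylC p G) {P : Sylow p G} {x : G}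
    (h : Good P x) {J : Subgroup G} (hJ : IsPGroup p J) (hx : x ∈ J) : J ≤ P := by
  obtain ⟨Q, hQ⟩ := hJ.exists_le_sylow
  rw [h.unique h12 (hQ hx)] at hQ
  exact hQ

/-- the normaliser of a `p`-subgroup containing a good element lies in `N_G(P)` -/
theorem Good.normalizer_le {p : ℕ} [Fact p.Prime] (h12 : SylC p G) {P : Sylow p G} {x : G}
    (h : Good P x) {J : Subgroup G} (hJ : IsPGroup p J) (hx : x ∈ J) :
    normalizer (J : Set G) ≤ normalizer (P : Set G) := by
  intro n hn
  apply h.mem_normalizer h12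
  apply h.le h12 hJ hx
  exact (mem_normalizer_iff.mp hn x).mp hx

end good

end H51.FT
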