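import Pool.Agent.H51.FT.Pair
import Pool.Agent.H23.FT.S5B

/-!
5.2 in the form `S52`, and the statement (PAIR).
-/

namespace H51.FT

open Subgroup H57.FT
open scoped Pointwise commutatorElement

variable {G : Type*} [Group G] [Finite G] [IsSimpleGroup G]

/-- (5.2) -/
theorem s52 (hG : _root_.commutator G = ⊤) (hodd : Odd (Nat.card G))
    (hNA : ∀ H : Subgroup G, H < ⊤ → Group.IsNilpotent (_root_.commutator H)) : S52 G := by
  intro p q hp hq P Q x y hx hxp hy hyq hxy hNC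
  have hpq : p ≠ q := hNC.prime_ne
  refine ⟨fun a ha b hb => H23.FT.five_two_abelian hG hodd hNA P Q hpq hNC.to_num hx hxp hy hyq hxy
    ha hb, ?_⟩
  intro m hm
  have hPb : (P : Subgroup G) ≠ ⊥ := H23.FT.sylow_ne_bot P hx.1 hx.2.1
  have hM : normalizer (P : Set G) < ⊤ := lt_top_iff_ne_top.mpr (normalizer_ne_top hG P.2 hPb)
  obtain ⟨k, hk, z, hz, e⟩ := H23.FT.five_two_fac hG hNA Q P hy hx hxy.symm m hm
  refine ⟨k, ?_, z, ⟨hz.2, hz.1⟩, e⟩
  apply Pool.Agent.H3.FT.mem_of_parts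
  rintro s hs w hw ⟨j, hj⟩
  have hsf : Fact s.Prime := ⟨hs⟩
  by_cases hw1 : w = 1
  · rw [hw1]; exact one_mem _
  have hwc : w ∈ (⁅normalizer (P : Set G), normalizer (P : Set G)⁆ : Subgroup G) :=
    (zpowers_le.mpr hk) hw
  obtain ⟨T, hT⟩ := H23.FT.five_two_comm hG hodd hNA Q P hpq.symm hNC.symm.to_num hy hyq hx hxp
    hxy.symm hwc hj hw1
  have hwT : w ∈ T := mem_of_mem_normalizer T (hT (comm_le_self _ hwc)) hj
  have hTb : (T : Subgroup G) ≠ ⊥ := H23.FT.sylow_ne_bot T hwT hw1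
  have hTt : normalizer (T : Set G) < ⊤ := lt_top_iff_ne_top.mpr (normalizer_ne_top hG T.2 hTb)
  exact le_FM' hs T (eq_normalizer_of_le (sylC hG hNA) hG hNA P hPb hTt hT) hwT

/-- (PAIR): commuting elements `x`, `y` of prime orders of different classes: `y ∈ H(x)` or
`x ∈ H(y)` -/
theorem pair (hG : _root_.commutator G = ⊤) (hodd : Odd (Nat.card G))
    (hNA : ∀ H : Subgroup G, H < ⊤ → Group.IsNilpotent (_root_.commutator H))
    {p q : ℕ} [Fact p.Prime] [Fact q.Prime] (P : Sylow p G) (Q : Sylow q G) {x y : G}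
    (hx : x ∈ P) (hxp : orderOf x = p) (hy : y ∈ Q) (hyq : orderOf y = q)
    (hxy : x * y = y * x) (hNC : NC (normalizer (P : Set G)) (normalizer (Q : Set G))) :
    y ∈ HH x ∨ x ∈ HH y :=
  pair_of hG hodd hNA (s52 hG hodd hNA) P Q hx hxp hy hyq hxy hNC

end H51.FT
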